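import Mathlib

set_option autoImplicit false

namespace Pool.Agent.N382.XK

open Finset

/-- the `m` smallest elements of a finset with respect to a function -/
lemma exists_lower {α : Type*} [DecidableEq α] (C : Finset α) (e : α → ℕ) :
    ∀ m : ℕ, m ≤ C.card → ∃ P ⊆ C, P.card = m ∧ ∀ i ∈ P, ∀ j ∈ C \ P, e i ≤ e j := by
  intro m
  induction m with
  | zero =>
    intro _
    exact ⟨∅, by simp, by simp, by simp⟩
  | succ m ih =>
    intro hm
    obtain ⟨P, hPC, hPm, hP⟩ := ih (by omega)
    have hne : (C \ P).Nonempty := by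
      rw [← Finset.card_pos, Finset.card_sdiff_of_subset hPC]
      omega
    obtain ⟨a, ha, hmin⟩ := Finset.exists_min_image (C \ P) e hne
    have haC : a ∈ C := (Finset.mem_sdiff.mp ha).1
    have haP : a ∉ P := (Finset.mem_sdiff.mp ha).2
    refine ⟨insert a P, ?_, ?_, ?_⟩
    · intro x hx
      rcases Finset.mem_insert.mp hx with rfl | hx
      · exact haC
      · exact hPC hx
    · rw [Finset.card_insert_of_notMem haP, hPm]
    · intro i hi j hj
      have hj1 : j ∈ C := (Finset.mem_sdiff.mp hj).1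
      have hj2 : j ∉ insert a P := (Finset.mem_sdiff.mp hj).2
      have hj3 : j ∉ P := fun h => hj2 (Finset.mem_insert_of_mem h)
      have hj4 : j ∈ C \ P := Finset.mem_sdiff.mpr ⟨hj1, hj3⟩
      rcases Finset.mem_insert.mp hi with rfl | hi
      · exact hmin j hj4
      · exact hP i hi j hj4

section local_ineq

variable {ι : Type*} [DecidableEq ι]

/-- Local inequality for an interval order. -/
lemma local_ineq (D A B : Finset ι) (s e : ι → ℕ) (hA : A ⊆ D) (hB : B ⊆ D)
    (h1 : ∀ i ∈ A, ∀ j ∈ B, e i < s j)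
    (h2 : ∀ i ∈ D, ∀ j ∈ D, e i < s j → i ∈ A ∨ j ∈ B) :
    (∑ j ∈ D, 2 * ((D.filter (fun i => e i < s j)).card : ℤ)
      - ∑ j ∈ D, ((D.filter (fun i => e i < s j)).card : ℤ)
          * (((D.filter (fun i => e i < s j)).card : ℤ) - 1)
      - ∑ i ∈ D, ((D.filter (fun j => e i < s j)).card : ℤ)
          * (((D.filter (fun j => e i < s j)).card : ℤ) - 1))
      ≤ 2 * ((A.card : ℤ) + B.card - A.card * B.card) := by
  classical
  set dn : ι → ℤ := fun j => ((D.filter (fun i => e i < s j)).card : ℤ) with hdn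
  set u : ι → ℤ := fun i => ((D.filter (fun j => e i < s j)).card : ℤ) with hu
  have hdn0 : ∀ j, 0 ≤ dn j := fun j => by simp [hdn]
  have hu0 : ∀ i, 0 ≤ u i := fun i => by simp [hu]
  have huu : ∀ i, 0 ≤ u i * (u i - 1) := by
    intro i
    rcases (hu0 i).eq_or_lt with h | h
    · rw [← h]; simp
    · exact mul_nonneg h.le (by omega)
  by_cases hF : ∃ i ∈ D, ∃ j ∈ D, e i < s j
  · -- comparabilities exist
    obtain ⟨i1, hi1, j1, hj1, hij1⟩ := hF
    obtain ⟨i0, hi0, hmin⟩ := Finset.exists_min_image D e ⟨i1, hi1⟩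
    have hJ : ∀ j ∈ D, 2 * dn j - dn j * (dn j - 1) ≤ if e i0 < s j then 2 else 0 := by
      intro j hj
      split_ifs with h
      · have h1 : 1 ≤ dn j := by
          have : 0 < (D.filter (fun i => e i < s j)).card :=
            Finset.card_pos.mpr ⟨i0, by simp [hi0, h]⟩
          simp only [hdn]; omega
        rcases h1.eq_or_lt with h1 | h1
        · rw [← h1]; norm_num
        · rcases (show (2:ℤ) ≤ dn j by omega).eq_or_lt with h2 | h2
          · rw [← h2]; norm_num
          · nlinarith
      · have h0 : dn j = 0 := by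
          simp only [hdn]
          rw [Nat.cast_eq_zero, Finset.card_eq_zero, Finset.filter_eq_empty_iff]
          intro i hi hlt
          exact h (lt_of_le_of_lt (hmin i hi) hlt)
        rw [h0]; norm_num
    have hsum1 : ∑ j ∈ D, 2 * dn j - ∑ j ∈ D, dn j * (dn j - 1) ≤ 2 * u i0 := by
      rw [← Finset.sum_sub_distrib]
      refine (Finset.sum_le_sum hJ).trans ?_
      rw [← Finset.sum_filter, Finset.sum_const]
      simp only [hu, nsmul_eq_mul]
      linarith
    have hu1 : 1 ≤ u i0 := by
      have : 0 < (D.filter (fun j => e i0 < s j)).card :=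
        Finset.card_pos.mpr ⟨j1, by simp [hj1, lt_of_le_of_lt (hmin i1 hi1) hij1]⟩
      simp only [hu]; omega
    have hsum2 : u i0 * (u i0 - 1) + ∑ i ∈ A.erase i0, u i * (u i - 1)
        ≤ ∑ i ∈ D, u i * (u i - 1) := by
      rw [← Finset.add_sum_erase D _ hi0]
      have hsub : A.erase i0 ⊆ D.erase i0 := Finset.erase_subset_erase _ hA
      have := Finset.sum_le_sum_of_subset_of_nonneg hsub (f := fun i => u i * (u i - 1))
        (fun i _ _ => huu i)
      linarith
    have hsum3 : ((A.erase i0).card : ℤ) * ((B.card : ℤ) * (B.card - 1))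
        ≤ ∑ i ∈ A.erase i0, u i * (u i - 1) := by
      rw [← nsmul_eq_mul, ← Finset.sum_const]
      refine Finset.sum_le_sum ?_
      intro i hi
      have hiA := Finset.mem_of_mem_erase hi
      have hBu : (B.card : ℤ) ≤ u i := by
        simp only [hu]
        have : B.card ≤ (D.filter (fun j => e i < s j)).card := by
          apply Finset.card_le_card
          intro j hj
          simp [hB hj, h1 i hiA j hj]
        exact_mod_cast this
      rcases Nat.eq_zero_or_pos B.card with h0 | hpos
      · rw [h0]; simpa using huu i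
      · have : (1:ℤ) ≤ B.card := by exact_mod_cast hpos
        nlinarith
    have hcardA : (A.card : ℤ) - 1 ≤ (A.erase i0).card := by
      have := Finset.pred_card_le_card_erase (s := A) (a := i0)
      omega
    have hmain : 2 * u i0 - u i0 * (u i0 - 1) ≤ 2 := by
      rcases hu1.eq_or_lt with h1 | h1
      · rw [← h1]; norm_num
      · rcases (show (2:ℤ) ≤ u i0 by omega).eq_or_lt with h2 | h2
        · rw [← h2]; norm_num
        · nlinarith
    have hab : (1:ℤ) ≤ A.card ∨ (1:ℤ) ≤ B.card := by
      rcases h2 i1 hi1 j1 hj1 hij1 with h | h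
      · left
        have := Finset.card_pos.mpr ⟨i1, h⟩
        omega
      · right
        have := Finset.card_pos.mpr ⟨j1, h⟩
        omega
    have ha0 : (0:ℤ) ≤ A.card := by positivity
    have hb0 : (0:ℤ) ≤ B.card := by positivity
    have hbb : (0:ℤ) ≤ (B.card : ℤ) * (B.card - 1) := by
      rcases hb0.eq_or_lt with h | h
      · rw [← h]; simp
      · exact mul_nonneg h.le (by omega)
    have hkey : (A.card : ℤ) * (B.card * (B.card - 1)) - (B.card * (B.card - 1))
        ≤ ∑ i ∈ A.erase i0, u i * (u i - 1) := by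
      refine le_trans ?_ hsum3
      nlinarith
    have hkey0 : (0:ℤ) ≤ ∑ i ∈ A.erase i0, u i * (u i - 1) :=
      Finset.sum_nonneg (fun i _ => huu i)
    have hLHS : ∑ j ∈ D, 2 * dn j - ∑ j ∈ D, dn j * (dn j - 1) - ∑ i ∈ D, u i * (u i - 1)
        ≤ 2 - ∑ i ∈ A.erase i0, u i * (u i - 1) := by linarith
    refine hLHS.trans ?_
    rcases ha0.eq_or_lt with ha | ha
    · -- a = 0
      rw [← ha] at hab ⊢
      rcases hab with h | h
      · omega
      · nlinarith
    · rcases hb0.eq_or_lt with hb | hb
      · rw [← hb]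
        have : (1:ℤ) ≤ A.card := by omega
        nlinarith
      · have ha1 : (1:ℤ) ≤ A.card := by omega
        have hb1 : (1:ℤ) ≤ B.card := by omega
        have hbb2 : 2 * ((B.card : ℤ) - 1) ≤ (B.card : ℤ) * (B.card - 1) := by
          rcases hb1.eq_or_lt with h | h
          · rw [← h]; norm_num
          · nlinarith
        have := mul_le_mul_of_nonneg_left hbb2 (show (0:ℤ) ≤ (A.card : ℤ) - 1 by omega)
        nlinarith
  · push Not at hF
    have h0 : ∀ j ∈ D, dn j = 0 := by
      intro j hj
      simp only [hdn]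
      rw [Nat.cast_eq_zero, Finset.card_eq_zero, Finset.filter_eq_empty_iff]
      intro i hi
      exact not_lt.mpr (hF i hi j hj)
    have h0' : ∀ i ∈ D, u i = 0 := by
      intro i hi
      simp only [hu]
      rw [Nat.cast_eq_zero, Finset.card_eq_zero, Finset.filter_eq_empty_iff]
      intro j hj
      exact not_lt.mpr (hF i hi j hj)
    have e1 : ∑ j ∈ D, 2 * dn j = 0 := Finset.sum_eq_zero (fun j hj => by rw [h0 j hj]; simp)
    have e2 : ∑ j ∈ D, dn j * (dn j - 1) = 0 :=
      Finset.sum_eq_zero (fun j hj => by rw [h0 j hj]; simp)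
    have e3 : ∑ i ∈ D, u i * (u i - 1) = 0 :=
      Finset.sum_eq_zero (fun j hj => by rw [h0' j hj]; simp)
    rw [e1, e2, e3]
    have hab : A.card = 0 ∨ B.card = 0 := by
      by_contra hcon
      push Not at hcon
      obtain ⟨i, hi⟩ := Finset.card_pos.mp (Nat.pos_of_ne_zero hcon.1)
      obtain ⟨j, hj⟩ := Finset.card_pos.mp (Nat.pos_of_ne_zero hcon.2)
      exact absurd (h1 i hi j hj) (not_lt.mpr (hF i (hA hi) j (hB hj)))
    rcases hab with h | h <;> rw [h] <;> simp

end local_ineq

/-- The deterministic inequality. -/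
theorem delta_ineq {ι V : Type*} [Fintype ι] [DecidableEq ι] [Fintype V] [DecidableEq V]
    (k : ℕ) (X : ι → Finset V) (hXk : ∀ i, (X i).card = k) (s e : ι → ℕ)
    (hX : ∀ i j, e i < s j → (X i ∩ X j).Nonempty) :
    (∑ x : V,
      (∑ j ∈ univ.filter (fun i => x ∈ X i),
          2 * (((univ.filter (fun i => x ∈ X i)).filter (fun i => e i < s j)).card : ℤ)
      - ∑ j ∈ univ.filter (fun i => x ∈ X i),
          (((univ.filter (fun i => x ∈ X i)).filter (fun i => e i < s j)).card : ℤ)
          * ((((univ.filter (fun i => x ∈ X i)).filter (fun i => e i < s j)).card : ℤ) - 1)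
      - ∑ i ∈ univ.filter (fun i => x ∈ X i),
          (((univ.filter (fun i => x ∈ X i)).filter (fun j => e i < s j)).card : ℤ)
          * ((((univ.filter (fun i => x ∈ X i)).filter (fun j => e i < s j)).card : ℤ) - 1)))
      ≤ 2 * (k : ℤ) ^ 2 := by
  classical
  obtain ⟨P, -, hPcard, hP⟩ := exists_lower (univ : Finset ι) e (min k (Fintype.card ι))
    (by simp [Finset.card_univ])
  have hPk : P.card ≤ k := by rw [hPcard]; exact min_le_left _ _
  set Q : Finset ι := univ.filter (fun j => ∃ i, i ∉ P ∧ e i < s j) with hQ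
  have hPQ1 : ∀ i ∈ P, ∀ j ∈ Q, e i < s j := by
    intro i hi j hj
    simp only [hQ, Finset.mem_filter, Finset.mem_univ, true_and] at hj
    obtain ⟨i', hi', hlt⟩ := hj
    exact lt_of_le_of_lt (hP i hi i' (by simp [hi'])) hlt
  have hPQ2 : ∀ i j, e i < s j → i ∈ P ∨ j ∈ Q := by
    intro i j hlt
    by_cases hi : i ∈ P
    · exact Or.inl hi
    · right
      simp only [hQ, Finset.mem_filter, Finset.mem_univ, true_and]
      exact ⟨i, hi, hlt⟩
  have hstep : ∀ x : V, (∑ j ∈ univ.filter (fun i => x ∈ X i),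
          2 * (((univ.filter (fun i => x ∈ X i)).filter (fun i => e i < s j)).card : ℤ)
      - ∑ j ∈ univ.filter (fun i => x ∈ X i),
          (((univ.filter (fun i => x ∈ X i)).filter (fun i => e i < s j)).card : ℤ)
          * ((((univ.filter (fun i => x ∈ X i)).filter (fun i => e i < s j)).card : ℤ) - 1)
      - ∑ i ∈ univ.filter (fun i => x ∈ X i),
          (((univ.filter (fun i => x ∈ X i)).filter (fun j => e i < s j)).card : ℤ)
          * ((((univ.filter (fun i => x ∈ X i)).filter (fun j => e i < s j)).card : ℤ) - 1))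
      ≤ 2 * (((P.filter (fun i => x ∈ X i)).card : ℤ) + (Q.filter (fun i => x ∈ X i)).card
          - (P.filter (fun i => x ∈ X i)).card * (Q.filter (fun i => x ∈ X i)).card) := by
    intro x
    apply local_ineq
    · intro i hi
      simp only [Finset.mem_filter, Finset.mem_univ, true_and] at hi ⊢
      exact hi.2
    · intro i hi
      simp only [Finset.mem_filter, Finset.mem_univ, true_and] at hi ⊢
      exact hi.2
    · intro i hi j hj
      exact hPQ1 i (Finset.mem_filter.mp hi).1 j (Finset.mem_filter.mp hj).1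
    · intro i hi j hj hlt
      rcases hPQ2 i j hlt with h | h
      · left; exact Finset.mem_filter.mpr ⟨h, (Finset.mem_filter.mp hi).2⟩
      · right; exact Finset.mem_filter.mpr ⟨h, (Finset.mem_filter.mp hj).2⟩
  refine (Finset.sum_le_sum (fun x _ => hstep x)).trans ?_
  have hcount : ∀ S : Finset ι, ∑ x : V, ((S.filter (fun i => x ∈ X i)).card : ℤ)
      = k * S.card := by
    intro S
    have h1 : ∀ x : V, ((S.filter (fun i => x ∈ X i)).card : ℤ)
        = ∑ i ∈ S, if x ∈ X i then 1 else 0 := by
      intro x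
      rw [Finset.card_filter]; push_cast; rfl
    simp_rw [h1]
    rw [Finset.sum_comm]
    have h2 : ∀ i ∈ S, (∑ x : V, if x ∈ X i then (1:ℤ) else 0) = k := by
      intro i _
      rw [Finset.sum_ite_mem, Finset.univ_inter, Finset.sum_const, hXk i]
      simp
    rw [Finset.sum_congr rfl h2, Finset.sum_const]
    simp [mul_comm]
  have hprod : (P.card : ℤ) * Q.card ≤ ∑ x : V, ((P.filter (fun i => x ∈ X i)).card : ℤ)
      * (Q.filter (fun i => x ∈ X i)).card := by
    have h1 : ∀ x : V, ((P.filter (fun i => x ∈ X i)).card : ℤ)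
        * (Q.filter (fun i => x ∈ X i)).card
        = ∑ i ∈ P, ∑ j ∈ Q, if (x ∈ X i ∧ x ∈ X j) then 1 else 0 := by
      intro x
      rw [Finset.card_filter, Finset.card_filter]
      push_cast
      rw [Finset.sum_mul_sum]
      refine Finset.sum_congr rfl (fun i _ => Finset.sum_congr rfl (fun j _ => ?_))
      by_cases ha : x ∈ X i <;> by_cases hb : x ∈ X j <;> simp [ha, hb]
    simp_rw [h1]
    rw [Finset.sum_comm]
    have h2 : ∀ i ∈ P, (Q.card : ℤ) ≤ ∑ x : V, ∑ j ∈ Q,
        (if (x ∈ X i ∧ x ∈ X j) then (1:ℤ) else 0) := by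
      intro i hi
      rw [Finset.sum_comm]
      have h3 : ∀ j ∈ Q, (1:ℤ) ≤ ∑ x : V, (if (x ∈ X i ∧ x ∈ X j) then (1:ℤ) else 0) := by
        intro j hj
        obtain ⟨y, hy⟩ := hX i j (hPQ1 i hi j hj)
        rw [Finset.mem_inter] at hy
        have h4 := Finset.single_le_sum (f := fun x : V => (if (x ∈ X i ∧ x ∈ X j) then (1:ℤ) else 0))
          (s := univ) (fun x _ => by split_ifs <;> norm_num) (Finset.mem_univ y)
        simpa [hy.1, hy.2] using h4
      calc (Q.card : ℤ) = ∑ j ∈ Q, (1:ℤ) := by simp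
        _ ≤ _ := Finset.sum_le_sum h3
    calc (P.card : ℤ) * Q.card = ∑ i ∈ P, (Q.card : ℤ) := by simp
      _ ≤ _ := Finset.sum_le_sum h2
  have hfinal : ∑ x : V, 2 * (((P.filter (fun i => x ∈ X i)).card : ℤ)
        + (Q.filter (fun i => x ∈ X i)).card
          - (P.filter (fun i => x ∈ X i)).card * (Q.filter (fun i => x ∈ X i)).card)
      = 2 * ((k : ℤ) * P.card + k * Q.card - ∑ x : V, ((P.filter (fun i => x ∈ X i)).card : ℤ)
      * (Q.filter (fun i => x ∈ X i)).card) := by
    rw [← Finset.mul_sum, Finset.sum_sub_distrib, Finset.sum_add_distrib, hcount, hcount]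
  rw [hfinal]
  rcases le_or_gt k (Fintype.card ι) with hk | hk
  · have hPk' : P.card = k := by rw [hPcard]; exact min_eq_left hk
    rw [hPk'] at hprod ⊢
    nlinarith
  · have hPu : P = univ := by
      apply Finset.eq_univ_of_card
      rw [hPcard]; exact min_eq_right hk.le
    have hQ0 : Q = ∅ := by
      rw [hQ, Finset.filter_eq_empty_iff]
      rintro j - ⟨i, hi, -⟩
      rw [hPu] at hi
      exact hi (Finset.mem_univ i)
    rw [hQ0]
    simp only [Finset.card_empty, Nat.cast_zero, mul_zero, add_zero, Finset.filter_empty,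
      Finset.sum_const_zero, sub_zero]
    have : (P.card : ℤ) ≤ k := by exact_mod_cast hPk
    have hk0 : (0:ℤ) ≤ k := by positivity
    nlinarith

end Pool.Agent.N382.XK
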