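import Mathlib
import Pool.Agent.N382.XK.Delta

set_option autoImplicit false

namespace Pool.Agent.N382.XK

open Finset

/-- The permutations which put all of `C₁` before all of `C₂`. -/
def permsLt {n : ℕ} (C₁ C₂ : Finset (Fin n)) : Finset (Equiv.Perm (Fin n)) :=
  univ.filter (fun σ => ∀ u ∈ C₁, ∀ v ∈ C₂, σ u < σ v)

lemma mem_permsLt {n : ℕ} {C₁ C₂ : Finset (Fin n)} {σ : Equiv.Perm (Fin n)} :
    σ ∈ permsLt C₁ C₂ ↔ ∀ u ∈ C₁, ∀ v ∈ C₂, σ u < σ v := by
  simp [permsLt]

lemma exists_perm_pair {n : ℕ} (A₁ A₂ C₁ C₂ : Finset (Fin n)) (hA : Disjoint A₁ A₂)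
    (hC : Disjoint C₁ C₂) (h1 : A₁.card = C₁.card) (h2 : A₂.card = C₂.card) :
    ∃ π : Equiv.Perm (Fin n), (∀ u, u ∈ A₁ ↔ π u ∈ C₁) ∧ (∀ u, u ∈ A₂ ↔ π u ∈ C₂) := by
  classical
  let e1 : A₁ ≃ C₁ := Finset.equivOfCardEq h1
  let e2 : A₂ ≃ C₂ := Finset.equivOfCardEq h2
  let f : A₁ ⊕ A₂ → Fin n := Sum.elim (fun a => a.1) (fun a => a.1)
  let g : A₁ ⊕ A₂ → Fin n := Sum.elim (fun a => (e1 a).1) (fun a => (e2 a).1)
  have hf : Function.Injective f := by
    rintro (a | a) (b | b) hab
    · simp only [f, Sum.elim_inl] at hab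
      rw [Subtype.ext hab]
    · simp only [f, Sum.elim_inl, Sum.elim_inr] at hab
      exact absurd (hab ▸ b.2 : (a : Fin n) ∈ A₂) (Finset.disjoint_left.mp hA a.2)
    · simp only [f, Sum.elim_inl, Sum.elim_inr] at hab
      exact absurd (hab ▸ a.2 : (b : Fin n) ∈ A₂) (Finset.disjoint_left.mp hA b.2)
    · simp only [f, Sum.elim_inr] at hab
      rw [Subtype.ext hab]
  have hg : Function.Injective g := by
    rintro (a | a) (b | b) hab
    · simp only [g, Sum.elim_inl] at hab
      rw [e1.injective (Subtype.ext hab)]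
    · simp only [g, Sum.elim_inl, Sum.elim_inr] at hab
      exact absurd (hab ▸ (e2 b).2 : ((e1 a : C₁) : Fin n) ∈ C₂)
        (Finset.disjoint_left.mp hC (e1 a).2)
    · simp only [g, Sum.elim_inl, Sum.elim_inr] at hab
      exact absurd (hab ▸ (e2 a).2 : ((e1 b : C₁) : Fin n) ∈ C₂)
        (Finset.disjoint_left.mp hC (e1 b).2)
    · simp only [g, Sum.elim_inr] at hab
      rw [e2.injective (Subtype.ext hab)]
  obtain ⟨π, hπ⟩ := Equiv.Perm.exists_extending_pair f g hf hg
  have hπ1 : ∀ a : A₁, π a.1 = (e1 a).1 := fun a => hπ (Sum.inl a)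
  have hπ2 : ∀ a : A₂, π a.1 = (e2 a).1 := fun a => hπ (Sum.inr a)
  refine ⟨π, fun u => ⟨fun hu => ?_, fun hu => ?_⟩, fun u => ⟨fun hu => ?_, fun hu => ?_⟩⟩
  · rw [hπ1 ⟨u, hu⟩]; exact (e1 ⟨u, hu⟩).2
  · have h := hπ1 (e1.symm ⟨π u, hu⟩)
    rw [Equiv.apply_symm_apply] at h
    have := π.injective h
    rw [← this]; exact (e1.symm ⟨π u, hu⟩).2
  · rw [hπ2 ⟨u, hu⟩]; exact (e2 ⟨u, hu⟩).2
  · have h := hπ2 (e2.symm ⟨π u, hu⟩)
    rw [Equiv.apply_symm_apply] at h
    have := π.injective h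
    rw [← this]; exact (e2.symm ⟨π u, hu⟩).2

lemma permsLt_card_eq {n : ℕ} (A₁ A₂ C₁ C₂ : Finset (Fin n)) (hA : Disjoint A₁ A₂)
    (hC : Disjoint C₁ C₂) (h1 : A₁.card = C₁.card) (h2 : A₂.card = C₂.card) :
    (permsLt A₁ A₂).card = (permsLt C₁ C₂).card := by
  obtain ⟨π, hπ1, hπ2⟩ := exists_perm_pair A₁ A₂ C₁ C₂ hA hC h1 h2
  refine Finset.card_bij' (fun σ _ => π⁻¹.trans σ) (fun σ _ => π.trans σ) ?_ ?_ ?_ ?_
  · intro σ hσ
    rw [mem_permsLt] at hσ ⊢
    intro u hu v hv
    have hu' : π⁻¹ u ∈ A₁ := by rw [hπ1]; simpa using hu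
    have hv' : π⁻¹ v ∈ A₂ := by rw [hπ2]; simpa using hv
    simpa using hσ _ hu' _ hv'
  · intro σ hσ
    rw [mem_permsLt] at hσ ⊢
    intro u hu v hv
    simpa using hσ _ ((hπ1 u).mp hu) _ ((hπ2 v).mp hv)
  · intro σ _
    ext x; simp
  · intro σ _
    ext x; simp

lemma perm_count {n : ℕ} (C₁ C₂ : Finset (Fin n)) (hd : Disjoint C₁ C₂) :
    (permsLt C₁ C₂).card * (C₁.card + C₂.card).choose C₁.card = n.factorial := by
  classical
  have hone : ∀ σ : Equiv.Perm (Fin n),
      (((C₁ ∪ C₂).powersetCard C₁.card).filter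
        (fun A => σ ∈ permsLt A ((C₁ ∪ C₂) \ A))).card = 1 := by
    intro σ
    rw [Finset.card_eq_one]
    obtain ⟨P, hPC, hPc, hP⟩ := exists_lower (C₁ ∪ C₂) (fun u => (σ u : ℕ)) C₁.card
      (Finset.card_le_card Finset.subset_union_left)
    have hPlt : ∀ u ∈ P, ∀ v ∈ (C₁ ∪ C₂) \ P, σ u < σ v := by
      intro u hu v hv
      refine lt_of_le_of_ne (hP u hu v hv) ?_
      intro h
      have := σ.injective h
      rw [this] at hu
      exact (Finset.mem_sdiff.mp hv).2 hu
    refine ⟨P, ?_⟩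
    ext A
    simp only [Finset.mem_filter, Finset.mem_powersetCard, Finset.mem_singleton, mem_permsLt]
    constructor
    · rintro ⟨⟨hAC, hAc⟩, hA⟩
      by_contra hne
      have hcard : A.card = P.card := by rw [hAc, hPc]
      have h1 : ¬ A ⊆ P := fun h => hne (Finset.eq_of_subset_of_card_le h hcard.ge)
      have h2 : ¬ P ⊆ A := fun h => hne (Finset.eq_of_subset_of_card_le h hcard.le).symm
      obtain ⟨u, huA, huP⟩ := Finset.not_subset.mp h1
      obtain ⟨v, hvP, hvA⟩ := Finset.not_subset.mp h2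
      have ha := hA u huA v (Finset.mem_sdiff.mpr ⟨hPC hvP, hvA⟩)
      have hb := hPlt v hvP u (Finset.mem_sdiff.mpr ⟨hAC huA, huP⟩)
      exact absurd ha (not_lt.mpr hb.le)
    · rintro rfl
      exact ⟨⟨hPC, hPc⟩, hPlt⟩
  have hcardU : (C₁ ∪ C₂).card = C₁.card + C₂.card := Finset.card_union_of_disjoint hd
  have hsum : ∑ σ : Equiv.Perm (Fin n), (((C₁ ∪ C₂).powersetCard C₁.card).filter
        (fun A => σ ∈ permsLt A ((C₁ ∪ C₂) \ A))).card = n.factorial := by
    rw [Finset.sum_congr rfl (fun σ _ => hone σ)]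
    simp [Fintype.card_perm]
  rw [← hsum]
  have hswap : ∑ σ : Equiv.Perm (Fin n), (((C₁ ∪ C₂).powersetCard C₁.card).filter
        (fun A => σ ∈ permsLt A ((C₁ ∪ C₂) \ A))).card
      = ∑ A ∈ (C₁ ∪ C₂).powersetCard C₁.card, (permsLt A ((C₁ ∪ C₂) \ A)).card := by
    simp_rw [Finset.card_filter]
    rw [Finset.sum_comm]
    refine Finset.sum_congr rfl (fun A _ => ?_)
    rw [← Finset.sum_filter, ← Finset.card_eq_sum_ones]
    congr 1
    ext σ; simp
  rw [hswap]
  have hconst : ∀ A ∈ (C₁ ∪ C₂).powersetCard C₁.card,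
      (permsLt A ((C₁ ∪ C₂) \ A)).card = (permsLt C₁ C₂).card := by
    intro A hA
    rw [Finset.mem_powersetCard] at hA
    apply permsLt_card_eq _ _ _ _ Finset.disjoint_sdiff hd hA.2
    rw [Finset.card_sdiff_of_subset hA.1, hA.2, hcardU]
    omega
  rw [Finset.sum_congr rfl hconst, Finset.sum_const, Finset.card_powersetCard, hcardU,
    smul_eq_mul, mul_comm]

/-- Vandermonde for subsets. -/
lemma vandermonde_subsets {α : Type*} [DecidableEq α] (Z A₁ A₂ : Finset α) (k : ℕ)
    (hZ : Z.card = k) (hA1 : A₁ ⊆ Z) (hA2 : A₂ ⊆ Z) (hd : Disjoint A₁ A₂) :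
    ∑ J ∈ Z.powerset.filter (fun J => A₁ ⊆ J ∧ Disjoint J A₂), k.choose J.card
      = (2 * k - A₁.card - A₂.card).choose (k - A₁.card) := by
  classical
  set W := Z \ (A₁ ∪ A₂) with hW
  have hsub : A₁ ∪ A₂ ⊆ Z := Finset.union_subset hA1 hA2
  have hUcard : (A₁ ∪ A₂).card = A₁.card + A₂.card := Finset.card_union_of_disjoint hd
  have hle : A₁.card + A₂.card ≤ k := by
    rw [← hUcard, ← hZ]; exact Finset.card_le_card hsub
  have hWcard : W.card = k - A₁.card - A₂.card := by
    rw [hW, Finset.card_sdiff_of_subset hsub, hZ, hUcard]; omega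
  have hbij : ∑ J ∈ Z.powerset.filter (fun J => A₁ ⊆ J ∧ Disjoint J A₂), k.choose J.card
      = ∑ J ∈ W.powerset, k.choose (A₁.card + J.card) := by
    refine Finset.sum_bij' (fun J _ => J \ A₁) (fun J _ => A₁ ∪ J) ?_ ?_ ?_ ?_ ?_
    · intro J hJ
      simp only [Finset.mem_filter, Finset.mem_powerset] at hJ ⊢
      intro x hx
      rw [Finset.mem_sdiff] at hx
      rw [hW, Finset.mem_sdiff, Finset.mem_union]
      refine ⟨hJ.1 hx.1, ?_⟩
      rintro (h | h)
      · exact hx.2 h
      · exact Finset.disjoint_left.mp hJ.2.2 hx.1 h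
    · intro J hJ
      simp only [Finset.mem_filter, Finset.mem_powerset] at hJ ⊢
      refine ⟨Finset.union_subset hA1 (hJ.trans Finset.sdiff_subset), Finset.subset_union_left, ?_⟩
      rw [Finset.disjoint_union_left]
      refine ⟨hd, ?_⟩
      rw [Finset.disjoint_left]
      intro x hx hx2
      have := hJ hx
      rw [hW, Finset.mem_sdiff, Finset.mem_union] at this
      exact this.2 (Or.inr hx2)
    · intro J hJ
      simp only [Finset.mem_filter, Finset.mem_powerset] at hJ
      exact Finset.union_sdiff_of_subset hJ.2.1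
    · intro J hJ
      simp only [Finset.mem_powerset] at hJ
      rw [Finset.union_sdiff_left]
      rw [Finset.sdiff_eq_self_iff_disjoint, Finset.disjoint_left]
      intro x hx hx2
      have := hJ hx
      rw [hW, Finset.mem_sdiff, Finset.mem_union] at this
      exact this.2 (Or.inl hx2)
    · intro J hJ
      simp only [Finset.mem_filter, Finset.mem_powerset] at hJ
      congr 1
      rw [Finset.card_sdiff_of_subset hJ.2.1]
      have := Finset.card_le_card hJ.2.1
      omega
  rw [hbij]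
  have h2 : ∑ J ∈ W.powerset, k.choose (A₁.card + J.card)
      = ∑ m ∈ range (W.card + 1), W.card.choose m * k.choose (A₁.card + m) := by
    rw [Finset.sum_powerset_apply_card (fun m => k.choose (A₁.card + m))]
    simp
  rw [h2]
  have h3 : (2 * k - A₁.card - A₂.card) = W.card + k := by rw [hWcard]; omega
  rw [h3, Nat.add_choose_eq, Finset.Nat.sum_antidiagonal_eq_sum_range_succ
    (fun i j => W.card.choose i * k.choose j)]
  have h4 : range (W.card + 1) ⊆ range ((k - A₁.card).succ) := by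
    apply Finset.range_subset_range.mpr
    rw [hWcard]; omega
  rw [← Finset.sum_subset h4]
  · refine Finset.sum_congr rfl (fun m hm => ?_)
    rw [Finset.mem_range] at hm
    congr 1
    have hmk : A₁.card + m ≤ k := by rw [hWcard] at hm; omega
    rw [← Nat.choose_symm hmk]
    congr 1
    omega
  · intro m _ hm
    rw [Finset.mem_range, not_lt] at hm
    rw [Nat.choose_eq_zero_of_lt (by omega), zero_mul]

/-- The numerical inequality. -/
lemma num_lemma : ∀ (q M k : ℕ), 2 ≤ q → 1 ≤ k → M + 2 ≤ k + q →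
    (q + 1) * M.choose q ≤ (M + k).choose q := by
  intro q
  induction q with
  | zero => intro M k h; omega
  | succ q ih =>
    intro M k hq hk hM
    rcases Nat.lt_or_ge q 2 with h | h
    · -- q + 1 = 2
      have hq1 : q = 1 := by omega
      subst hq1
      have hMk : M ≤ k := by omega
      have e1 : M.choose 2 * 2 = M * (M - 1) := by
        rw [Nat.choose_two_right]
        exact Nat.div_mul_cancel (Nat.even_mul_pred_self M).two_dvd
      have e2 : (M + k).choose 2 * 2 = (M + k) * (M + k - 1) := by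
        rw [Nat.choose_two_right]
        exact Nat.div_mul_cancel (Nat.even_mul_pred_self (M + k)).two_dvd
      rcases Nat.eq_zero_or_pos M with hM0 | hM0
      · subst hM0; simp
      · obtain ⟨m, rfl⟩ : ∃ m, M = m + 1 := ⟨M - 1, by omega⟩
        obtain ⟨t, rfl⟩ : ∃ t, k = m + 1 + t := ⟨k - (m + 1), by omega⟩
        simp only [Nat.add_sub_cancel] at e1
        have e3 : m + 1 + (m + 1 + t) - 1 = 2 * m + 1 + t := by omega
        rw [e3] at e2
        have : 3 * ((m + 1).choose 2) * 2 ≤ (m + 1 + (m + 1 + t)).choose 2 * 2 := by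
          rw [mul_assoc, e1, e2]
          nlinarith [Nat.zero_le m, Nat.zero_le t, Nat.zero_le (m * t), Nat.zero_le (m*m)]
        have h12 : (1 + 1 : ℕ) = 2 := rfl
        rw [h12]
        exact Nat.le_of_mul_le_mul_right this (by norm_num)
    · rcases Nat.eq_zero_or_pos M with hM0 | hM0
      · subst hM0; simp
      · obtain ⟨m, rfl⟩ : ∃ m, M = m + 1 := ⟨M - 1, by omega⟩
        have ih' := ih m k h hk (by omega)
        have e1 := Nat.add_one_mul_choose_eq m q
        have e2 := Nat.add_one_mul_choose_eq (m + k) q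
        have e3 : m + 1 + k = (m + k).succ := by omega
        rw [e3]
        simp only [Nat.succ_eq_add_one] at e1 e2 ⊢
        -- (m+1) * C(m,q) = C(m+1,q+1) * (q+1)
        have hpos : 0 < (q + 1) * (q + 1) := by positivity
        refine Nat.le_of_mul_le_mul_right ?_ hpos
        calc (q + 1 + 1) * (m + 1).choose (q + 1) * ((q + 1) * (q + 1))
            = (q + 2) * (q + 1) * ((m + 1).choose (q + 1) * (q + 1)) := by ring
          _ = (q + 2) * (m + 1) * ((q + 1) * m.choose q) := by rw [← e1]; ring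
          _ ≤ (q + 2) * (m + 1) * (m + k).choose q := by gcongr
          _ ≤ ((q + 1) * (m + k + 1)) * (m + k).choose q := by
              apply Nat.mul_le_mul_right
              have hq' : q ≤ q * k + 1 := by nlinarith
              nlinarith
          _ = (m + k + 1).choose (q + 1) * ((q + 1) * (q + 1)) := by
              rw [mul_assoc, e2]; ring

end Pool.Agent.N382.XK
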