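import Mathlib
import Pool.Agent.N382.XK.PermCount

set_option autoImplicit false

namespace Pool.Agent.N382.XK

open Finset

variable {n : ℕ}

/-- Positions: `J` first, then the elements outside `Z` in the order `σ`, then `Z \ J`. -/
def pos (Z J : Finset (Fin n)) (σ : Equiv.Perm (Fin n)) (v : Fin n) : ℕ :=
  if v ∈ J then 0 else if v ∈ Z then n + 1 else (σ v : ℕ) + 1

/-- All of `C₁` is before all of `C₂`. -/
def LT (Z : Finset (Fin n)) (p : Finset (Fin n) × Equiv.Perm (Fin n))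
    (C₁ C₂ : Finset (Fin n)) : Prop :=
  ∀ u ∈ C₁, ∀ v ∈ C₂, pos Z p.1 p.2 u < pos Z p.1 p.2 v

instance (Z : Finset (Fin n)) (p : Finset (Fin n) × Equiv.Perm (Fin n))
    (C₁ C₂ : Finset (Fin n)) : Decidable (LT Z p C₁ C₂) := by
  unfold LT; infer_instance

lemma LT_iff (Z J : Finset (Fin n)) (σ : Equiv.Perm (Fin n)) (hJ : J ⊆ Z)
    (C₁ C₂ : Finset (Fin n)) (h1 : (C₁ ∩ Z).Nonempty) (h2 : (C₂ ∩ Z).Nonempty) :
    LT Z (J, σ) C₁ C₂ ↔
      ((C₁ ∩ Z ⊆ J ∧ Disjoint J (C₂ ∩ Z)) ∧ σ ∈ permsLt (C₁ \ Z) (C₂ \ Z)) := by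
  have hlt : ∀ v : Fin n, (σ v : ℕ) + 1 < n + 1 := fun v => by have := (σ v).2; omega
  constructor
  · intro h
    obtain ⟨u0, hu0⟩ := h1
    obtain ⟨v0, hv0⟩ := h2
    rw [Finset.mem_inter] at hu0 hv0
    refine ⟨⟨?_, ?_⟩, ?_⟩
    · intro u hu
      rw [Finset.mem_inter] at hu
      by_contra hcon
      have := h u hu.1 v0 hv0.1
      simp only [pos, if_neg hcon, if_pos hu.2] at this
      split_ifs at this with ha hb
      · omega
      · omega
      · exact hb hv0.2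
    · rw [Finset.disjoint_left]
      intro v hvJ hv
      rw [Finset.mem_inter] at hv
      have := h u0 hu0.1 v hv.1
      simp only [pos, if_pos hvJ] at this
      omega
    · rw [mem_permsLt]
      intro u hu v hv
      rw [Finset.mem_sdiff] at hu hv
      have := h u hu.1 v hv.1
      have huJ : u ∉ J := fun hh => hu.2 (hJ hh)
      have hvJ : v ∉ J := fun hh => hv.2 (hJ hh)
      simp only [pos, if_neg huJ, if_neg hvJ, if_neg hu.2, if_neg hv.2] at this
      exact Fin.lt_def.mpr (by omega)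
  · rintro ⟨⟨ha, hb⟩, hc⟩ u hu v hv
    rw [mem_permsLt] at hc
    by_cases huJ : u ∈ J
    · by_cases hvJ : v ∈ J
      · exfalso
        exact Finset.disjoint_left.mp hb hvJ (Finset.mem_inter.mpr ⟨hv, hJ hvJ⟩)
      · simp only [pos, if_pos huJ, if_neg hvJ]
        split_ifs <;> omega
    · have huZ : u ∉ Z := fun hh => huJ (ha (Finset.mem_inter.mpr ⟨hu, hh⟩))
      by_cases hvZ : v ∈ Z
      · have hvJ : v ∉ J := fun hh =>
          Finset.disjoint_left.mp hb hh (Finset.mem_inter.mpr ⟨hv, hvZ⟩)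
        simp only [pos, if_neg huJ, if_neg huZ, if_neg hvJ, if_pos hvZ]
        exact hlt u
      · have hvJ : v ∉ J := fun hh => hvZ (hJ hh)
        simp only [pos, if_neg huJ, if_neg huZ, if_neg hvJ, if_neg hvZ]
        have := hc u (Finset.mem_sdiff.mpr ⟨hu, huZ⟩) v (Finset.mem_sdiff.mpr ⟨hv, hvZ⟩)
        have := Fin.lt_def.mp this
        omega

/-- The proper nonempty subsets of `Z`. -/
def proper (Z : Finset (Fin n)) : Finset (Finset (Fin n)) :=
  Z.powerset.filter (fun J => J ≠ ∅ ∧ J ≠ Z)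

/-- The sample space. -/
def Om (Z : Finset (Fin n)) : Finset (Finset (Fin n) × Equiv.Perm (Fin n)) :=
  proper Z ×ˢ univ

/-- Weighted count of the pairs in the sample space with `C₁` before `C₂`. -/
def wc (k : ℕ) (Z C₁ C₂ : Finset (Fin n)) : ℕ :=
  ∑ p ∈ Om Z, k.choose p.1.card * (if LT Z p C₁ C₂ then 1 else 0)

lemma wc_eq (k : ℕ) (Z C₁ C₂ : Finset (Fin n))
    (h1 : (C₁ ∩ Z).Nonempty) (h2 : (C₂ ∩ Z).Nonempty) :
    wc k Z C₁ C₂ = (∑ J ∈ Z.powerset.filter (fun J => C₁ ∩ Z ⊆ J ∧ Disjoint J (C₂ ∩ Z)),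
      k.choose J.card) * (permsLt (C₁ \ Z) (C₂ \ Z)).card := by
  classical
  unfold wc Om
  rw [Finset.sum_product]
  have hsub : Z.powerset.filter (fun J => C₁ ∩ Z ⊆ J ∧ Disjoint J (C₂ ∩ Z)) ⊆ proper Z := by
    intro J hJ
    simp only [Finset.mem_filter, Finset.mem_powerset, proper] at hJ ⊢
    refine ⟨hJ.1, ?_, ?_⟩
    · rintro rfl
      exact h1.ne_empty (Finset.subset_empty.mp hJ.2.1)
    · rintro rfl
      obtain ⟨v, hv⟩ := h2
      exact Finset.disjoint_left.mp hJ.2.2 (Finset.mem_inter.mp hv).2 hv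
  rw [Finset.sum_mul, ← Finset.sum_subset hsub]
  · refine Finset.sum_congr rfl (fun J hJ => ?_)
    simp only [Finset.mem_filter, Finset.mem_powerset] at hJ
    change (∑ y : Equiv.Perm (Fin n), k.choose J.card * (if LT Z (J, y) C₁ C₂ then 1 else 0)) = _
    rw [← Finset.mul_sum]
    congr 1
    rw [← Finset.sum_filter, ← Finset.card_eq_sum_ones]
    congr 1
    ext σ
    simp only [Finset.mem_filter, Finset.mem_univ, true_and]
    rw [LT_iff Z J σ hJ.1 C₁ C₂ h1 h2]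
    exact ⟨fun h => h.2, fun h => ⟨hJ.2, h⟩⟩
  · intro J hJ hJ2
    simp only [Finset.mem_filter, Finset.mem_powerset, proper] at hJ hJ2
    refine Finset.sum_eq_zero (fun σ _ => ?_)
    rw [if_neg, mul_zero]
    intro h
    rw [LT_iff Z J σ hJ.1 C₁ C₂ h1 h2] at h
    exact hJ2 ⟨hJ.1, h.1⟩

lemma card_sdiff_inter (C Z : Finset (Fin n)) : (C \ Z).card = C.card - (C ∩ Z).card := by
  rw [← Finset.card_sdiff_add_card_inter C Z]; omega

lemma wc_formula (k : ℕ) (Z C₁ C₂ : Finset (Fin n)) (hZ : Z.card = k) (hd : Disjoint C₁ C₂)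
    (h1 : (C₁ ∩ Z).Nonempty) (h2 : (C₂ ∩ Z).Nonempty) :
    wc k Z C₁ C₂ * ((C₁.card - (C₁ ∩ Z).card) + (C₂.card - (C₂ ∩ Z).card)).choose
        (C₁.card - (C₁ ∩ Z).card)
      = (2 * k - (C₁ ∩ Z).card - (C₂ ∩ Z).card).choose (k - (C₁ ∩ Z).card) * n.factorial := by
  classical
  rw [wc_eq k Z C₁ C₂ h1 h2]
  rw [vandermonde_subsets Z (C₁ ∩ Z) (C₂ ∩ Z) k hZ Finset.inter_subset_right
    Finset.inter_subset_right
    (Finset.disjoint_of_subset_left Finset.inter_subset_left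
      (Finset.disjoint_of_subset_right Finset.inter_subset_left hd))]
  have h := perm_count (C₁ \ Z) (C₂ \ Z)
    (Finset.disjoint_of_subset_left Finset.sdiff_subset
      (Finset.disjoint_of_subset_right Finset.sdiff_subset hd))
  rw [card_sdiff_inter, card_sdiff_inter] at h
  rw [mul_assoc, h]

lemma wc_pair (k : ℕ) (Z C₁ C₂ : Finset (Fin n)) (hZ : Z.card = k) (hd : Disjoint C₁ C₂)
    (hc1 : C₁.card = k) (hc2 : C₂.card = k)
    (h1 : (C₁ ∩ Z).Nonempty) (h2 : (C₂ ∩ Z).Nonempty) :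
    wc k Z C₁ C₂ = n.factorial := by
  classical
  have h := wc_formula k Z C₁ C₂ hZ hd h1 h2
  have ha : (C₁ ∩ Z).card ≤ k := hc1 ▸ Finset.card_le_card Finset.inter_subset_left
  have hb : (C₂ ∩ Z).card ≤ k := hc2 ▸ Finset.card_le_card Finset.inter_subset_left
  rw [hc1, hc2] at h
  have e : (k - (C₁ ∩ Z).card) + (k - (C₂ ∩ Z).card) = 2 * k - (C₁ ∩ Z).card - (C₂ ∩ Z).card := by
    omega
  rw [e] at h
  have hpos : 0 < (2 * k - (C₁ ∩ Z).card - (C₂ ∩ Z).card).choose (k - (C₁ ∩ Z).card) := by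
    apply Nat.choose_pos; omega
  rw [mul_comm] at h
  exact Nat.eq_of_mul_eq_mul_left hpos h

/-- Common estimate behind the two triple bounds. -/
lemma triple_aux (k q M d W F : ℕ) (hk : 1 ≤ k) (hq : 2 ≤ q) (hqk : q ≤ k) (hd : d ≤ q + 1)
    (hM : M + 2 ≤ k + q)
    (h : W * (M + k).choose q = M.choose q * F) : d * W ≤ F := by
  have hnum := num_lemma q M k hq hk hM
  have hpos : 0 < (M + k).choose q := Nat.choose_pos (by omega)
  refine Nat.le_of_mul_le_mul_right ?_ hpos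
  calc d * W * (M + k).choose q = d * (W * (M + k).choose q) := by ring
    _ = (d * M.choose q) * F := by rw [h]; ring
    _ ≤ ((q + 1) * M.choose q) * F := by gcongr
    _ ≤ (M + k).choose q * F := by gcongr
    _ = F * (M + k).choose q := by ring

lemma wc_triple_up (k d : ℕ) (Z C₁ C₂ C₃ : Finset (Fin n)) (hZ : Z.card = k)
    (h12 : Disjoint C₁ C₂) (h13 : Disjoint C₁ C₃) (h23 : Disjoint C₂ C₃)
    (hc1 : C₁.card = k) (hc2 : C₂.card = k) (hc3 : C₃.card = k)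
    (h1 : (C₁ ∩ Z).Nonempty) (h2 : (C₂ ∩ Z).Nonempty) (h3 : (C₃ ∩ Z).Nonempty)
    (hd : (C₁ ∩ Z).card + (d - 1) ≤ k) (hd3 : 3 ≤ d) :
    d * wc k Z C₁ (C₂ ∪ C₃) ≤ n.factorial := by
  classical
  have hdis : Disjoint C₁ (C₂ ∪ C₃) := Finset.disjoint_union_right.mpr ⟨h12, h13⟩
  have hint : (C₂ ∪ C₃) ∩ Z = (C₂ ∩ Z) ∪ (C₃ ∩ Z) := Finset.union_inter_distrib_right _ _ _
  have hdz : Disjoint (C₂ ∩ Z) (C₃ ∩ Z) :=
    (Finset.disjoint_of_subset_left Finset.inter_subset_left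
      (Finset.disjoint_of_subset_right Finset.inter_subset_left h23))
  have hcard : ((C₂ ∪ C₃) ∩ Z).card = (C₂ ∩ Z).card + (C₃ ∩ Z).card := by
    rw [hint, Finset.card_union_of_disjoint hdz]
  have hcu : (C₂ ∪ C₃).card = 2 * k := by
    rw [Finset.card_union_of_disjoint h23, hc2, hc3]; ring
  have hne : ((C₂ ∪ C₃) ∩ Z).Nonempty := by
    rw [hint]; exact h2.mono Finset.subset_union_left
  have h := wc_formula k Z C₁ (C₂ ∪ C₃) hZ hdis h1 hne
  rw [hc1, hcu, hcard] at h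
  have p1 := Finset.card_pos.mpr h1
  have p2 := Finset.card_pos.mpr h2
  have p3 := Finset.card_pos.mpr h3
  have hsum : (C₁ ∩ Z).card + (C₂ ∩ Z).card + (C₃ ∩ Z).card ≤ k := by
    have : ((C₁ ∪ (C₂ ∪ C₃)) ∩ Z).card ≤ k := hZ ▸ Finset.card_le_card Finset.inter_subset_right
    rw [Finset.union_inter_distrib_right, Finset.card_union_of_disjoint
      (Finset.disjoint_of_subset_left Finset.inter_subset_left
      (Finset.disjoint_of_subset_right Finset.inter_subset_left hdis)), hcard] at this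
    omega
  refine triple_aux k (k - (C₁ ∩ Z).card)
    (2 * k - (C₁ ∩ Z).card - (C₂ ∩ Z).card - (C₃ ∩ Z).card) d _ _ (by omega) (by omega)
    (by omega) (by omega) (by omega) ?_
  have e1 : k - (C₁ ∩ Z).card + (2 * k - ((C₂ ∩ Z).card + (C₃ ∩ Z).card))
      = (2 * k - (C₁ ∩ Z).card - (C₂ ∩ Z).card - (C₃ ∩ Z).card) + k := by omega
  have e2 : 2 * k - (C₁ ∩ Z).card - ((C₂ ∩ Z).card + (C₃ ∩ Z).card)
      = 2 * k - (C₁ ∩ Z).card - (C₂ ∩ Z).card - (C₃ ∩ Z).card := by omega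
  rw [e1, e2] at h
  exact h

lemma wc_triple_down (k d : ℕ) (Z C₁ C₂ C₃ : Finset (Fin n)) (hZ : Z.card = k)
    (h12 : Disjoint C₁ C₂) (h13 : Disjoint C₁ C₃) (h23 : Disjoint C₂ C₃)
    (hc1 : C₁.card = k) (hc2 : C₂.card = k) (hc3 : C₃.card = k)
    (h1 : (C₁ ∩ Z).Nonempty) (h2 : (C₂ ∩ Z).Nonempty) (h3 : (C₃ ∩ Z).Nonempty)
    (hd : (C₁ ∩ Z).card + (d - 1) ≤ k) (hd3 : 3 ≤ d) :
    d * wc k Z (C₂ ∪ C₃) C₁ ≤ n.factorial := by
  classical
  have hdis : Disjoint (C₂ ∪ C₃) C₁ :=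
    Finset.disjoint_union_left.mpr ⟨h12.symm, h13.symm⟩
  have hint : (C₂ ∪ C₃) ∩ Z = (C₂ ∩ Z) ∪ (C₃ ∩ Z) := Finset.union_inter_distrib_right _ _ _
  have hdz : Disjoint (C₂ ∩ Z) (C₃ ∩ Z) :=
    (Finset.disjoint_of_subset_left Finset.inter_subset_left
      (Finset.disjoint_of_subset_right Finset.inter_subset_left h23))
  have hcard : ((C₂ ∪ C₃) ∩ Z).card = (C₂ ∩ Z).card + (C₃ ∩ Z).card := by
    rw [hint, Finset.card_union_of_disjoint hdz]
  have hcu : (C₂ ∪ C₃).card = 2 * k := by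
    rw [Finset.card_union_of_disjoint h23, hc2, hc3]; ring
  have hne : ((C₂ ∪ C₃) ∩ Z).Nonempty := by
    rw [hint]; exact h2.mono Finset.subset_union_left
  have h := wc_formula k Z (C₂ ∪ C₃) C₁ hZ hdis hne h1
  rw [hc1, hcu, hcard] at h
  have p1 := Finset.card_pos.mpr h1
  have p2 := Finset.card_pos.mpr h2
  have p3 := Finset.card_pos.mpr h3
  have hsum : (C₁ ∩ Z).card + (C₂ ∩ Z).card + (C₃ ∩ Z).card ≤ k := by
    have : (((C₂ ∪ C₃) ∪ C₁) ∩ Z).card ≤ k := hZ ▸ Finset.card_le_card Finset.inter_subset_right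
    rw [Finset.union_inter_distrib_right, Finset.card_union_of_disjoint
      (Finset.disjoint_of_subset_left Finset.inter_subset_left
      (Finset.disjoint_of_subset_right Finset.inter_subset_left hdis)), hcard] at this
    omega
  refine triple_aux k (k - (C₁ ∩ Z).card)
    (2 * k - (C₁ ∩ Z).card - (C₂ ∩ Z).card - (C₃ ∩ Z).card) d _ _ (by omega) (by omega)
    (by omega) (by omega) (by omega) ?_
  have e1 : 2 * k - ((C₂ ∩ Z).card + (C₃ ∩ Z).card) + (k - (C₁ ∩ Z).card)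
      = (2 * k - (C₁ ∩ Z).card - (C₂ ∩ Z).card - (C₃ ∩ Z).card) + k := by omega
  have e2 : 2 * k - ((C₂ ∩ Z).card + (C₃ ∩ Z).card) - (C₁ ∩ Z).card
      = 2 * k - (C₁ ∩ Z).card - (C₂ ∩ Z).card - (C₃ ∩ Z).card := by omega
  rw [e1, e2] at h
  have e3 : ((2 * k - (C₁ ∩ Z).card - (C₂ ∩ Z).card - (C₃ ∩ Z).card) + k).choose
      (2 * k - ((C₂ ∩ Z).card + (C₃ ∩ Z).card))
      = ((2 * k - (C₁ ∩ Z).card - (C₂ ∩ Z).card - (C₃ ∩ Z).card) + k).choose
      (k - (C₁ ∩ Z).card) := by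
    apply Nat.choose_symm_of_eq_add
    omega
  have e4 : (2 * k - (C₁ ∩ Z).card - (C₂ ∩ Z).card - (C₃ ∩ Z).card).choose
      (k - ((C₂ ∩ Z).card + (C₃ ∩ Z).card))
      = (2 * k - (C₁ ∩ Z).card - (C₂ ∩ Z).card - (C₃ ∩ Z).card).choose
      (k - (C₁ ∩ Z).card) := by
    apply Nat.choose_symm_of_eq_add
    omega
  rw [e3, e4] at h
  exact h

/-- The total weight. -/
lemma total_weight (k : ℕ) (Z : Finset (Fin n)) (hZ : Z.card = k) (hk : 1 ≤ k) :
    ∑ p ∈ Om Z, k.choose p.1.card + 2 * n.factorial = (2 * k).choose k * n.factorial := by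
  classical
  have h := vandermonde_subsets Z ∅ ∅ k hZ (by simp) (by simp) (by simp)
  simp only [Finset.empty_subset, Finset.disjoint_empty_right, and_self, Finset.filter_true,
    Finset.card_empty, Nat.sub_zero] at h
  have hsplit : ∑ J ∈ proper Z, k.choose J.card + 2 = ∑ J ∈ Z.powerset, k.choose J.card := by
    have hne : (∅ : Finset (Fin n)) ≠ Z := by
      intro hh; rw [← hh] at hZ; simp at hZ; omega
    have hp : proper Z = (Z.powerset.erase ∅).erase Z := by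
      ext J
      simp only [proper, Finset.mem_filter, Finset.mem_powerset, Finset.mem_erase]
      tauto
    rw [hp]
    have hmem1 : (∅ : Finset (Fin n)) ∈ Z.powerset := by simp
    have hmem2 : Z ∈ Z.powerset.erase ∅ := by
      rw [Finset.mem_erase]; exact ⟨hne.symm, by simp⟩
    rw [← Finset.add_sum_erase _ _ hmem1, ← Finset.add_sum_erase _ _ hmem2]
    simp [hZ]
    omega
  unfold Om
  rw [Finset.sum_product]
  have h2 : ∑ x ∈ proper Z, ∑ y : Equiv.Perm (Fin n), k.choose (x, y).1.card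
      = (∑ J ∈ proper Z, k.choose J.card) * n.factorial := by
    rw [Finset.sum_mul]
    refine Finset.sum_congr rfl (fun J _ => ?_)
    simp [Fintype.card_perm, mul_comm]
  rw [h2, ← h, ← hsplit]
  ring

end Pool.Agent.N382.XK
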