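import Mathlib
import Pool.Agent.N382.XK.Measure

set_option autoImplicit false

namespace Pool.Agent.N382.XK

open Finset

variable {n : ℕ}

lemma LT_union_left (Z : Finset (Fin n)) (p : Finset (Fin n) × Equiv.Perm (Fin n))
    (C₁ C₂ C : Finset (Fin n)) : LT Z p (C₁ ∪ C₂) C ↔ LT Z p C₁ C ∧ LT Z p C₂ C := by
  unfold LT
  constructor
  · intro h
    exact ⟨fun u hu => h u (Finset.mem_union_left _ hu),
      fun u hu => h u (Finset.mem_union_right _ hu)⟩
  · rintro ⟨h1, h2⟩ u hu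
    rcases Finset.mem_union.mp hu with h | h
    · exact h1 u h
    · exact h2 u h

lemma LT_union_right (Z : Finset (Fin n)) (p : Finset (Fin n) × Equiv.Perm (Fin n))
    (C₁ C₂ C : Finset (Fin n)) : LT Z p C (C₁ ∪ C₂) ↔ LT Z p C C₁ ∧ LT Z p C C₂ := by
  unfold LT
  constructor
  · intro h
    exact ⟨fun u hu v hv => h u hu v (Finset.mem_union_left _ hv),
      fun u hu v hv => h u hu v (Finset.mem_union_right _ hv)⟩
  · rintro ⟨h1, h2⟩ u hu v hv
    rcases Finset.mem_union.mp hv with h | h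
    · exact h1 u hu v h
    · exact h2 u hu v h

lemma not_LT_self (Z : Finset (Fin n)) (p : Finset (Fin n) × Equiv.Perm (Fin n))
    (C : Finset (Fin n)) (hC : C.Nonempty) : ¬ LT Z p C C := by
  intro h
  obtain ⟨u, hu⟩ := hC
  exact lt_irrefl _ (h u hu u hu)

lemma wc_zero_of (k : ℕ) (Z C₁ C₂ : Finset (Fin n))
    (h : ∀ p, ¬ LT Z p C₁ C₂) : wc k Z C₁ C₂ = 0 := by
  unfold wc
  refine Finset.sum_eq_zero (fun p _ => ?_)
  rw [if_neg (h p), mul_zero]

section point

variable {ι : Type*} [DecidableEq ι]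

/-- The local term. -/
def Tx (Z : Finset (Fin n)) (Y : ι → Finset (Fin n)) (D : Finset ι)
    (p : Finset (Fin n) × Equiv.Perm (Fin n)) : ℤ :=
  ∑ j ∈ D, 2 * ((D.filter (fun i => LT Z p (Y i) (Y j))).card : ℤ)
      - ∑ j ∈ D, ((D.filter (fun i => LT Z p (Y i) (Y j))).card : ℤ)
          * (((D.filter (fun i => LT Z p (Y i) (Y j))).card : ℤ) - 1)
      - ∑ i ∈ D, ((D.filter (fun j => LT Z p (Y i) (Y j))).card : ℤ)
          * (((D.filter (fun j => LT Z p (Y i) (Y j))).card : ℤ) - 1)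

omit [DecidableEq ι] in
lemma card_mul_pred (D : Finset ι) (P : ι → Prop) [DecidablePred P] :
    ((D.filter P).card : ℤ) * (((D.filter P).card : ℤ) - 1)
      = ∑ q ∈ D.offDiag, if (P q.1 ∧ P q.2) then 1 else 0 := by
  have h1 : (((D.filter P).offDiag).card : ℤ)
      = ((D.filter P).card : ℤ) * (((D.filter P).card : ℤ) - 1) := by
    rw [Finset.offDiag_card]
    have : (D.filter P).card ≤ (D.filter P).card * (D.filter P).card :=
      Nat.le_mul_self _
    push_cast [Nat.cast_sub this]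
    ring
  rw [← h1]
  have h2 : (D.filter P).offDiag = D.offDiag.filter (fun q => P q.1 ∧ P q.2) := by
    ext q
    simp only [Finset.mem_offDiag, Finset.mem_filter]
    tauto
  rw [h2, Finset.card_filter]
  push_cast
  rfl

lemma Tx_eq (Z : Finset (Fin n)) (Y : ι → Finset (Fin n)) (D : Finset ι)
    (p : Finset (Fin n) × Equiv.Perm (Fin n)) :
    Tx Z Y D p = 2 * ∑ j ∈ D, ∑ i ∈ D, (if LT Z p (Y i) (Y j) then (1:ℤ) else 0)
      - ∑ j ∈ D, ∑ q ∈ D.offDiag, (if LT Z p (Y q.1 ∪ Y q.2) (Y j) then (1:ℤ) else 0)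
      - ∑ i ∈ D, ∑ q ∈ D.offDiag, (if LT Z p (Y i) (Y q.1 ∪ Y q.2) then (1:ℤ) else 0) := by
  unfold Tx
  congr 1
  · congr 1
    · rw [Finset.mul_sum]
      refine Finset.sum_congr rfl (fun j _ => ?_)
      rw [Finset.card_filter]
      push_cast
      rfl
    · refine Finset.sum_congr rfl (fun j _ => ?_)
      rw [card_mul_pred]
      refine Finset.sum_congr rfl (fun q _ => ?_)
      simp only [LT_union_left]
  · refine Finset.sum_congr rfl (fun i _ => ?_)
    rw [card_mul_pred]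
    refine Finset.sum_congr rfl (fun q _ => ?_)
    simp only [LT_union_right]

omit [DecidableEq ι] in
lemma swap_sums {α β γ : Type*} (S : Finset α) (T : Finset β) (O : Finset γ) (w : γ → ℤ)
    (F : γ → α → β → ℤ) :
    ∑ p ∈ O, w p * ∑ a ∈ S, ∑ b ∈ T, F p a b
      = ∑ a ∈ S, ∑ b ∈ T, ∑ p ∈ O, w p * F p a b := by
  simp_rw [Finset.mul_sum]
  rw [Finset.sum_comm]
  refine Finset.sum_congr rfl (fun a _ => ?_)
  rw [Finset.sum_comm]

lemma sum_Tx (k : ℕ) (Z : Finset (Fin n)) (Y : ι → Finset (Fin n)) (D : Finset ι) :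
    ∑ p ∈ Om Z, (k.choose p.1.card : ℤ) * Tx Z Y D p
      = 2 * ∑ j ∈ D, ∑ i ∈ D, (wc k Z (Y i) (Y j) : ℤ)
      - ∑ j ∈ D, ∑ q ∈ D.offDiag, (wc k Z (Y q.1 ∪ Y q.2) (Y j) : ℤ)
      - ∑ i ∈ D, ∑ q ∈ D.offDiag, (wc k Z (Y i) (Y q.1 ∪ Y q.2) : ℤ) := by
  have hwc : ∀ C₁ C₂ : Finset (Fin n), (wc k Z C₁ C₂ : ℤ)
      = ∑ p ∈ Om Z, (k.choose p.1.card : ℤ) * (if LT Z p C₁ C₂ then (1:ℤ) else 0) := by
    intro C₁ C₂
    unfold wc
    push_cast
    rfl
  simp_rw [Tx_eq, hwc]
  rw [← swap_sums, ← swap_sums, ← swap_sums]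
  simp_rw [mul_sub]
  rw [Finset.sum_sub_distrib, Finset.sum_sub_distrib]
  congr 1
  congr 1
  rw [Finset.mul_sum]
  refine Finset.sum_congr rfl (fun p _ => ?_)
  ring

omit [DecidableEq ι] in
lemma sum_inter_le (k : ℕ) (Z : Finset (Fin n)) (hZ : Z.card = k) (Y : ι → Finset (Fin n))
    (D : Finset ι) (hdis : ∀ i ∈ D, ∀ j ∈ D, i ≠ j → Disjoint (Y i) (Y j)) :
    ∑ i ∈ D, (Y i ∩ Z).card ≤ k := by
  classical
  rw [← Finset.card_biUnion]
  · rw [← hZ]
    apply Finset.card_le_card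
    intro v hv
    rw [Finset.mem_biUnion] at hv
    obtain ⟨i, _, hv⟩ := hv
    exact (Finset.mem_inter.mp hv).2
  · intro i hi j hj hij
    exact Finset.disjoint_of_subset_left Finset.inter_subset_left
      (Finset.disjoint_of_subset_right Finset.inter_subset_left (hdis i hi j hj hij))

lemma inter_bound (k : ℕ) (Z : Finset (Fin n)) (hZ : Z.card = k) (Y : ι → Finset (Fin n))
    (D : Finset ι) (hdis : ∀ i ∈ D, ∀ j ∈ D, i ≠ j → Disjoint (Y i) (Y j))
    (hYZ : ∀ i ∈ D, (Y i ∩ Z).Nonempty) (j : ι) (hj : j ∈ D) :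
    (Y j ∩ Z).card + (D.card - 1) ≤ k := by
  refine le_trans ?_ (sum_inter_le k Z hZ Y D hdis)
  rw [← Finset.add_sum_erase D _ hj]
  have : (D.card - 1) ≤ ∑ i ∈ D.erase j, (Y i ∩ Z).card := by
    rw [← Finset.card_erase_of_mem hj, Finset.card_eq_sum_ones]
    refine Finset.sum_le_sum (fun i hi => ?_)
    exact Finset.card_pos.mpr (hYZ i (Finset.mem_of_mem_erase hi))
  omega

lemma point_bound (k : ℕ) (Z : Finset (Fin n)) (hZ : Z.card = k)
    (Y : ι → Finset (Fin n)) (hY : ∀ i, (Y i).card = k)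
    (D : Finset ι) (hdis : ∀ i ∈ D, ∀ j ∈ D, i ≠ j → Disjoint (Y i) (Y j))
    (hYZ : ∀ i ∈ D, (Y i ∩ Z).Nonempty) (hD : D.Nonempty) :
    4 * ((D.card : ℤ) - 1) * (n.factorial : ℤ)
      ≤ ∑ p ∈ Om Z, (k.choose p.1.card : ℤ) * Tx Z Y D p := by
  rw [sum_Tx]
  have hYne : ∀ i ∈ D, (Y i).Nonempty := fun i hi => (hYZ i hi).mono Finset.inter_subset_left
  set F : ℤ := (n.factorial : ℤ) with hF
  set d : ℤ := (D.card : ℤ) with hd
  have hd1 : 1 ≤ d := by
    have := Finset.card_pos.mpr hD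
    rw [hd]; exact_mod_cast this
  -- pairs
  have hpair : d * ((d - 1) * F) ≤ ∑ j ∈ D, ∑ i ∈ D, (wc k Z (Y i) (Y j) : ℤ) := by
    have h1 : ∀ j ∈ D, (d - 1) * F ≤ ∑ i ∈ D, (wc k Z (Y i) (Y j) : ℤ) := by
      intro j hj
      rw [← Finset.add_sum_erase D _ hj]
      have h2 : ∑ i ∈ D.erase j, (wc k Z (Y i) (Y j) : ℤ) = (d - 1) * F := by
        have h3 : ∀ i ∈ D.erase j, (wc k Z (Y i) (Y j) : ℤ) = F := by
          intro i hi
          rw [Finset.mem_erase] at hi
          rw [hF, wc_pair k Z (Y i) (Y j) hZ (hdis i hi.2 j hj hi.1) (hY i) (hY j)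
            (hYZ i hi.2) (hYZ j hj)]
        rw [Finset.sum_congr rfl h3, Finset.sum_const, Finset.card_erase_of_mem hj, nsmul_eq_mul]
        have := Finset.card_pos.mpr hD
        push_cast [Nat.cast_sub (show 1 ≤ D.card by omega)]
        rfl
      rw [h2]
      have : (0:ℤ) ≤ (wc k Z (Y j) (Y j) : ℤ) := by positivity
      linarith
    calc d * ((d - 1) * F) = ∑ j ∈ D, ((d - 1) * F) := by
          rw [Finset.sum_const, nsmul_eq_mul]
      _ ≤ _ := Finset.sum_le_sum h1
  have hoff : (D.offDiag.card : ℤ) = d * (d - 1) := by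
    rw [Finset.offDiag_card]
    have : D.card ≤ D.card * D.card := Nat.le_mul_self _
    push_cast [Nat.cast_sub this]
    rw [hd]; ring
  -- generic triple bound
  have htriple : ∀ G : ι → ι × ι → ℤ,
      (∀ j ∈ D, ∀ q ∈ D.offDiag, j = q.1 ∨ j = q.2 → G j q = 0) →
      (∀ j ∈ D, ∀ q ∈ D.offDiag, j ≠ q.1 → j ≠ q.2 → d * G j q ≤ F) →
      d * ∑ j ∈ D, ∑ q ∈ D.offDiag, G j q ≤ d * (d - 1) * (d - 2) * F := by
    intro G hG0 hG1
    rw [Finset.sum_comm, Finset.mul_sum]
    have h1 : ∀ q ∈ D.offDiag, d * ∑ j ∈ D, G j q ≤ (d - 2) * F := by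
      intro q hq
      have hq' := Finset.mem_offDiag.mp hq
      have hsplit : ∑ j ∈ D, G j q = ∑ j ∈ (D.erase q.1).erase q.2, G j q := by
        symm
        apply Finset.sum_subset
        · exact (Finset.erase_subset _ _).trans (Finset.erase_subset _ _)
        · intro j hj hj2
          apply hG0 j hj q hq
          by_contra hcon
          push Not at hcon
          exact hj2 (Finset.mem_erase.mpr ⟨hcon.2, Finset.mem_erase.mpr ⟨hcon.1, hj⟩⟩)
      rw [hsplit, Finset.mul_sum]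
      have hle : ∀ j ∈ (D.erase q.1).erase q.2, d * G j q ≤ F := by
        intro j hj
        rw [Finset.mem_erase, Finset.mem_erase] at hj
        exact hG1 j hj.2.2 q hq hj.2.1 hj.1
      refine (Finset.sum_le_sum hle).trans ?_
      rw [Finset.sum_const, nsmul_eq_mul]
      have hmem : q.2 ∈ D.erase q.1 := Finset.mem_erase.mpr ⟨hq'.2.2.symm, hq'.2.1⟩
      have hc : (((D.erase q.1).erase q.2).card : ℤ) = d - 2 := by
        have c1 := Finset.card_erase_of_mem hmem
        have c2 := Finset.card_erase_of_mem hq'.1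
        have c3 : 2 ≤ D.card := by
          have : ({q.1, q.2} : Finset ι) ⊆ D := by
            intro x hx
            simp only [Finset.mem_insert, Finset.mem_singleton] at hx
            rcases hx with rfl | rfl
            · exact hq'.1
            · exact hq'.2.1
          have h2 := Finset.card_le_card this
          rwa [Finset.card_pair hq'.2.2] at h2
        rw [hd]
        omega
      rw [hc]
    refine (Finset.sum_le_sum h1).trans ?_
    rw [Finset.sum_const, nsmul_eq_mul, hoff]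
    linarith
  have hcard3 : ∀ j ∈ D, ∀ q ∈ D.offDiag, j ≠ q.1 → j ≠ q.2 → 3 ≤ D.card := by
    intro j hj q hq h1 h2
    have hq' := Finset.mem_offDiag.mp hq
    have hsub : ({j, q.1, q.2} : Finset ι) ⊆ D := by
      intro x hx
      simp only [Finset.mem_insert, Finset.mem_singleton] at hx
      rcases hx with rfl | rfl | rfl
      · exact hj
      · exact hq'.1
      · exact hq'.2.1
    have h3 := Finset.card_le_card hsub
    have h4 : ({j, q.1, q.2} : Finset ι).card = 3 := by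
      rw [Finset.card_eq_three]
      exact ⟨j, q.1, q.2, h1, h2, hq'.2.2, rfl⟩
    omega
  have hdown := htriple (fun j q => (wc k Z (Y q.1 ∪ Y q.2) (Y j) : ℤ))
    (by
      intro j hj q hq h
      have : wc k Z (Y q.1 ∪ Y q.2) (Y j) = 0 := by
        apply wc_zero_of
        intro p hp
        rw [LT_union_left] at hp
        rcases h with rfl | rfl
        · exact not_LT_self Z p _ (hYne _ hj) hp.1
        · exact not_LT_self Z p _ (hYne _ hj) hp.2
      simp [this])
    (by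
      intro j hj q hq h1 h2
      have hq' := Finset.mem_offDiag.mp hq
      have := wc_triple_down k D.card Z (Y j) (Y q.1) (Y q.2) hZ (hdis j hj _ hq'.1 h1)
        (hdis j hj _ hq'.2.1 h2) (hdis _ hq'.1 _ hq'.2.1 hq'.2.2) (hY _) (hY _) (hY _)
        (hYZ j hj) (hYZ _ hq'.1) (hYZ _ hq'.2.1)
        (inter_bound k Z hZ Y D hdis hYZ j hj) (hcard3 j hj q hq h1 h2)
      rw [hd, hF]
      exact_mod_cast this)
  have hup := htriple (fun j q => (wc k Z (Y j) (Y q.1 ∪ Y q.2) : ℤ))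
    (by
      intro j hj q hq h
      have : wc k Z (Y j) (Y q.1 ∪ Y q.2) = 0 := by
        apply wc_zero_of
        intro p hp
        rw [LT_union_right] at hp
        rcases h with rfl | rfl
        · exact not_LT_self Z p _ (hYne _ hj) hp.1
        · exact not_LT_self Z p _ (hYne _ hj) hp.2
      simp [this])
    (by
      intro j hj q hq h1 h2
      have hq' := Finset.mem_offDiag.mp hq
      have := wc_triple_up k D.card Z (Y j) (Y q.1) (Y q.2) hZ (hdis j hj _ hq'.1 h1)
        (hdis j hj _ hq'.2.1 h2) (hdis _ hq'.1 _ hq'.2.1 hq'.2.2) (hY _) (hY _) (hY _)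
        (hYZ j hj) (hYZ _ hq'.1) (hYZ _ hq'.2.1)
        (inter_bound k Z hZ Y D hdis hYZ j hj) (hcard3 j hj q hq h1 h2)
      rw [hd, hF]
      exact_mod_cast this)
  set P := ∑ j ∈ D, ∑ i ∈ D, (wc k Z (Y i) (Y j) : ℤ)
  set S1 := ∑ j ∈ D, ∑ q ∈ D.offDiag, (wc k Z (Y q.1 ∪ Y q.2) (Y j) : ℤ)
  set S2 := ∑ i ∈ D, ∑ q ∈ D.offDiag, (wc k Z (Y i) (Y q.1 ∪ Y q.2) : ℤ)
  have hfin : d * (4 * (d - 1) * F) ≤ d * (2 * P - S1 - S2) := by
    have : d * (d * ((d - 1) * F)) ≤ d * P := mul_le_mul_of_nonneg_left hpair (by omega)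
    nlinarith
  exact le_of_mul_le_mul_left hfin (by omega)

end point

/-- The upper bound for families with a common transversal `Z`. -/
theorem upper_of_transversal {ι : Type*} [Fintype ι] [DecidableEq ι] (k : ℕ) (hk : 1 ≤ k)
    (X Y : ι → Finset (Fin n)) (hX : ∀ i, (X i).card = k) (hY : ∀ i, (Y i).card = k)
    (hxy : ∀ i j, i ≠ j → ¬ Disjoint (X i) (X j) → Disjoint (Y i) (Y j))
    (hyx : ∀ i j, i ≠ j → Disjoint (Y i) (Y j) → ¬ Disjoint (X i) (X j))
    (Z : Finset (Fin n)) (hZ : Z.card = k) (hZY : ∀ i, ¬ Disjoint (Y i) Z) :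
    2 * k * Fintype.card ι + 2 * k ^ 2 ≤ 2 * n + k ^ 2 * (2 * k).choose k := by
  classical
  have hYZ : ∀ i, (Y i ∩ Z).Nonempty := fun i => Finset.not_disjoint_iff_nonempty_inter.mp (hZY i)
  have hYne : ∀ i, (Y i).Nonempty := fun i => (hYZ i).mono Finset.inter_subset_left
  -- deterministic inequality for each p
  have hdet : ∀ p ∈ Om Z, ∑ x : Fin n, Tx Z Y (univ.filter (fun i => x ∈ X i)) p
      ≤ 2 * (k : ℤ) ^ 2 := by
    intro p _
    set e : ι → ℕ := fun i => (Y i).sup (pos Z p.1 p.2) with he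
    set s : ι → ℕ := fun j => (Y j).inf' (hYne j) (pos Z p.1 p.2) with hs
    have hes : ∀ i j, e i < s j ↔ LT Z p (Y i) (Y j) := by
      intro i j
      constructor
      · intro h u hu v hv
        have h1 : pos Z p.1 p.2 u ≤ e i := Finset.le_sup (f := pos Z p.1 p.2) hu
        have h2 : s j ≤ pos Z p.1 p.2 v := Finset.inf'_le _ hv
        omega
      · intro h
        obtain ⟨v0, hv0, hv1⟩ := Finset.exists_mem_eq_inf' (hYne j) (pos Z p.1 p.2)
        obtain ⟨u0, hu0, hu1⟩ := Finset.exists_mem_eq_sup (Y i) (hYne i) (pos Z p.1 p.2)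
        have := h u0 hu0 v0 hv0
        simp only [he, hs]
        rw [hv1, hu1]
        exact this
    have hX' : ∀ i j, e i < s j → (X i ∩ X j).Nonempty := by
      intro i j hij
      rw [hes] at hij
      have hne : i ≠ j := by
        rintro rfl
        exact not_LT_self Z p _ (hYne i) hij
      rw [← Finset.not_disjoint_iff_nonempty_inter]
      apply hyx i j hne
      rw [Finset.disjoint_left]
      intro u hu hv
      exact lt_irrefl _ (hij u hu u hv)
    have h := delta_ineq k X hX s e hX'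
    simp only [hes] at h
    exact h
  have hsum := Finset.sum_le_sum (fun p hp =>
    mul_le_mul_of_nonneg_left (hdet p hp) (show (0:ℤ) ≤ (k.choose p.1.card : ℤ) by positivity))
  have hL : ∑ p ∈ Om Z, (k.choose p.1.card : ℤ)
        * ∑ x : Fin n, Tx Z Y (univ.filter (fun i => x ∈ X i)) p
      = ∑ x : Fin n, ∑ p ∈ Om Z, (k.choose p.1.card : ℤ)
        * Tx Z Y (univ.filter (fun i => x ∈ X i)) p := by
    simp_rw [Finset.mul_sum]
    rw [Finset.sum_comm]
  rw [hL, ← Finset.sum_mul] at hsum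
  have hW := total_weight k Z hZ hk
  have hWz : (∑ p ∈ Om Z, (k.choose p.1.card : ℤ))
      = ((2 * k).choose k : ℤ) * n.factorial - 2 * n.factorial := by
    have : ((∑ p ∈ Om Z, k.choose p.1.card : ℕ) : ℤ) + 2 * (n.factorial : ℤ)
        = ((2 * k).choose k : ℤ) * (n.factorial : ℤ) := by exact_mod_cast hW
    push_cast at this ⊢
    linarith
  rw [hWz] at hsum
  -- lower bound for each point
  have hpt : ∀ x : Fin n, 4 * (((univ.filter (fun i => x ∈ X i)).card : ℤ) - 1)
        * (n.factorial : ℤ) ≤ (∑ p ∈ Om Z, (k.choose p.1.card : ℤ)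
        * Tx Z Y (univ.filter (fun i => x ∈ X i)) p) := by
    intro x
    rcases (univ.filter (fun i => x ∈ X i)).eq_empty_or_nonempty with h0 | h0
    · rw [h0]
      have hz : ∑ p ∈ Om Z, (k.choose p.1.card : ℤ) * Tx Z Y (∅ : Finset ι) p = 0 := by
        refine Finset.sum_eq_zero (fun p _ => ?_)
        simp [Tx]
      rw [hz]
      have : (0:ℤ) < n.factorial := by exact_mod_cast Nat.factorial_pos n
      simp only [Finset.card_empty, Nat.cast_zero]
      nlinarith
    · apply point_bound k Z hZ Y hY _ _ (fun i _ => hYZ i) h0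
      intro i hi j hj hij
      simp only [Finset.mem_filter, Finset.mem_univ, true_and] at hi hj
      apply hxy i j hij
      rw [Finset.not_disjoint_iff]
      exact ⟨x, hi, hj⟩
  have hsum2 := (Finset.sum_le_sum (fun x (_ : x ∈ (univ : Finset (Fin n))) => hpt x)).trans hsum
  rw [← Finset.sum_mul, ← Finset.mul_sum, Finset.sum_sub_distrib] at hsum2
  have hcount : ∑ x : Fin n, ((univ.filter (fun i => x ∈ X i)).card : ℤ)
      = k * Fintype.card ι := by
    have h1 : ∀ x : Fin n, ((univ.filter (fun i => x ∈ X i)).card : ℤ)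
        = ∑ i : ι, if x ∈ X i then 1 else 0 := by
      intro x
      rw [Finset.card_filter]; push_cast; rfl
    simp_rw [h1]
    rw [Finset.sum_comm]
    have h2 : ∀ i ∈ (univ : Finset ι), (∑ x : Fin n, if x ∈ X i then (1:ℤ) else 0) = k := by
      intro i _
      rw [Finset.sum_ite_mem, Finset.univ_inter, Finset.sum_const, hX i]
      simp
    rw [Finset.sum_congr rfl h2, Finset.sum_const]
    simp [mul_comm]
  rw [hcount] at hsum2
  simp only [Finset.sum_const, Finset.card_univ, Fintype.card_fin, nsmul_eq_mul, mul_one] at hsum2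
  have hFpos : (0:ℤ) < n.factorial := by exact_mod_cast Nat.factorial_pos n
  have hfinal : (4 * ((k : ℤ) * Fintype.card ι - n))
      ≤ (((2 * k).choose k : ℤ) - 2) * (2 * (k:ℤ) ^ 2) := by
    refine le_of_mul_le_mul_right ?_ hFpos
    calc (4 * ((k : ℤ) * Fintype.card ι - n)) * (n.factorial : ℤ)
        ≤ (((2 * k).choose k : ℤ) * n.factorial - 2 * n.factorial) * (2 * (k:ℤ) ^ 2) := hsum2
      _ = (((2 * k).choose k : ℤ) - 2) * (2 * (k:ℤ) ^ 2) * (n.factorial : ℤ) := by ring
  have : (2 * (k:ℤ) * Fintype.card ι + 2 * (k:ℤ) ^ 2) ≤ 2 * n + (k:ℤ) ^ 2 * ((2 * k).choose k : ℤ) := by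
    nlinarith
  exact_mod_cast this

end Pool.Agent.N382.XK
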