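import Mathlib
import Pool.Agent.N382.XK.Upper

set_option autoImplicit false

namespace Pool.Agent.N382.XK

open Finset

variable {n : ℕ}

lemma card_meeting_le {ι : Type*} [DecidableEq ι] (S : Finset ι) (W : ι → Finset (Fin n))
    (hW : ∀ i ∈ S, ∀ j ∈ S, i ≠ j → Disjoint (W i) (W j)) (C : Finset (Fin n)) :
    (S.filter (fun i => ¬ Disjoint (W i) C)).card ≤ C.card := by
  classical
  calc (S.filter (fun i => ¬ Disjoint (W i) C)).card
      = ∑ i ∈ S.filter (fun i => ¬ Disjoint (W i) C), 1 := by simp
    _ ≤ ∑ i ∈ S.filter (fun i => ¬ Disjoint (W i) C), (W i ∩ C).card := by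
        refine Finset.sum_le_sum (fun i hi => ?_)
        rw [Finset.mem_filter, Finset.not_disjoint_iff_nonempty_inter] at hi
        exact Finset.card_pos.mpr hi.2
    _ = ((S.filter (fun i => ¬ Disjoint (W i) C)).biUnion (fun i => W i ∩ C)).card := by
        rw [Finset.card_biUnion]
        intro i hi j hj hij
        rw [Finset.mem_coe, Finset.mem_filter] at hi hj
        exact Finset.disjoint_of_subset_left Finset.inter_subset_left
          (Finset.disjoint_of_subset_right Finset.inter_subset_left (hW i hi.1 j hj.1 hij))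
    _ ≤ C.card := by
        apply Finset.card_le_card
        intro v hv
        rw [Finset.mem_biUnion] at hv
        obtain ⟨i, _, hv⟩ := hv
        exact (Finset.mem_inter.mp hv).2

section

variable {ι : Type*} [Fintype ι] [DecidableEq ι] (k : ℕ) (hk : 1 ≤ k)
    (X Y : ι → Finset (Fin n)) (hX : ∀ i, (X i).card = k) (hY : ∀ i, (Y i).card = k)
    (hxy : ∀ i j, i ≠ j → ¬ Disjoint (X i) (X j) → Disjoint (Y i) (Y j))
    (hyx : ∀ i j, i ≠ j → Disjoint (Y i) (Y j) → ¬ Disjoint (X i) (X j))

include hk hX hY hxy hyx

lemma degree_le (y : Fin n) (hy : 2 * k < (univ.filter (fun i => y ∈ Y i)).card) (x : Fin n) :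
    (univ.filter (fun i => x ∈ X i)).card ≤ 2 * k := by
  classical
  set R := univ.filter (fun i => y ∈ Y i) with hR
  set B := univ.filter (fun i => x ∈ X i) with hB
  have hRdis : ∀ i ∈ R, ∀ j ∈ R, i ≠ j → Disjoint (X i) (X j) := by
    intro i hi j hj hij
    by_contra hcon
    have := hxy i j hij hcon
    simp only [hR, Finset.mem_filter, Finset.mem_univ, true_and] at hi hj
    exact Finset.disjoint_left.mp this hi hj
  have hBdis : ∀ i ∈ B, ∀ j ∈ B, i ≠ j → Disjoint (Y i) (Y j) := by
    intro i hi j hj hij
    apply hxy i j hij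
    simp only [hB, Finset.mem_filter, Finset.mem_univ, true_and] at hi hj
    exact Finset.not_disjoint_iff.mpr ⟨x, hi, hj⟩
  have h1 : R.card * B.card ≤ B.card * k + R.card * k := by
    calc R.card * B.card = ∑ r ∈ R, ∑ b ∈ B, 1 := by simp
      _ ≤ ∑ r ∈ R, ∑ b ∈ B, ((if ¬ Disjoint (X r) (X b) then 1 else 0)
            + (if ¬ Disjoint (Y b) (Y r) then 1 else 0)) := by
          refine Finset.sum_le_sum (fun r _ => Finset.sum_le_sum (fun b _ => ?_))
          by_cases hrb : r = b
          · subst hrb
            have : ¬ Disjoint (X r) (X r) := by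
              rw [disjoint_self]
              intro h
              have h2 := hX r
              rw [h] at h2
              simp at h2
              omega
            rw [if_pos this]
            omega
          · by_cases hd : Disjoint (X r) (X b)
            · have : ¬ Disjoint (Y b) (Y r) := by
                intro h
                exact hyx r b hrb h.symm hd
              rw [if_pos this]; omega
            · rw [if_pos hd]; omega
      _ = ∑ b ∈ B, (R.filter (fun r => ¬ Disjoint (X r) (X b))).card
          + ∑ r ∈ R, (B.filter (fun b => ¬ Disjoint (Y b) (Y r))).card := by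
          simp_rw [Finset.sum_add_distrib]
          congr 1
          · rw [Finset.sum_comm]
            refine Finset.sum_congr rfl (fun b _ => ?_)
            rw [Finset.card_filter]
          · refine Finset.sum_congr rfl (fun r _ => ?_)
            rw [Finset.card_filter]
      _ ≤ ∑ b ∈ B, k + ∑ r ∈ R, k := by
          gcongr with b _ r _
          · exact (card_meeting_le R X hRdis (X b)).trans (hX b).le
          · exact (card_meeting_le B Y hBdis (Y r)).trans (hY r).le
      _ = B.card * k + R.card * k := by simp
  by_contra hcon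
  push Not at hcon
  nlinarith

lemma exists_transversal (hN : 2 * k ^ 2 * 4 ^ k < Fintype.card ι) (y : Fin n)
    (hy : 2 * k < (univ.filter (fun i => y ∈ Y i)).card) :
    ∃ i, ∀ j, ¬ Disjoint (Y j) (Y i) := by
  classical
  by_contra hcon
  push Not at hcon
  choose f hf using hcon
  have hdeg := degree_le k hk X Y hX hY hxy hyx y hy
  have hne : ∀ i, f i ≠ i := by
    intro i h
    have := hf i
    rw [h, disjoint_self] at this
    have h2 := hY i
    rw [this] at h2
    simp at h2
    omega
  -- n ≥ 2k
  have hιne : Nonempty ι := by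
    rw [← Fintype.card_pos_iff]; omega
  obtain ⟨i0⟩ := hιne
  have hn : 2 * k ≤ n := by
    have h1 : (Y (f i0) ∪ Y i0).card = 2 * k := by
      rw [Finset.card_union_of_disjoint (hf i0), hY, hY]; ring
    rw [← h1]
    simpa using Finset.card_le_univ (Y (f i0) ∪ Y i0)
  have hcount1 : ∀ i : ι, ((univ : Finset (Finset (Fin n))).filter
      (fun T => Y i ⊆ T ∧ Disjoint T (Y (f i)))).card = 2 ^ (n - 2 * k) := by
    intro i
    have : (univ : Finset (Finset (Fin n))).filter (fun T => Y i ⊆ T ∧ Disjoint T (Y (f i)))
        = Finset.Icc (Y i) ((Y (f i))ᶜ) := by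
      ext T
      simp only [Finset.mem_filter, Finset.mem_univ, true_and, Finset.mem_Icc]
      rw [Finset.subset_compl_iff_disjoint_right]
    rw [this, Finset.card_Icc_finset, Finset.card_compl, hY, hY, Fintype.card_fin]
    · congr 1; omega
    · rw [Finset.subset_compl_iff_disjoint_right]
      exact (hf i).symm
  have hcount2 : ∀ T : Finset (Fin n), ((univ : Finset ι).filter
      (fun i => Y i ⊆ T ∧ Disjoint T (Y (f i)))).card ≤ 2 * k ^ 2 := by
    intro T
    rcases ((univ : Finset ι).filter
      (fun i => Y i ⊆ T ∧ Disjoint T (Y (f i)))).eq_empty_or_nonempty with h0 | ⟨i1, hi1⟩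
    · rw [h0]; simp
    · simp only [Finset.mem_filter, Finset.mem_univ, true_and] at hi1
      calc ((univ : Finset ι).filter (fun i => Y i ⊆ T ∧ Disjoint T (Y (f i)))).card
          ≤ ((X (f i1)).biUnion (fun x => univ.filter (fun i => x ∈ X i))).card := by
            apply Finset.card_le_card
            intro i hi
            simp only [Finset.mem_filter, Finset.mem_univ, true_and] at hi
            have hdis : Disjoint (Y i) (Y (f i1)) :=
              Finset.disjoint_of_subset_left hi.1 hi1.2
            have hine : i ≠ f i1 := by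
              rintro rfl
              rw [disjoint_self] at hdis
              have h2 := hY (f i1)
              rw [hdis] at h2
              simp at h2
              omega
            have := hyx i (f i1) hine hdis
            rw [Finset.not_disjoint_iff] at this
            obtain ⟨x, hx1, hx2⟩ := this
            rw [Finset.mem_biUnion]
            exact ⟨x, hx2, by simp [hx1]⟩
        _ ≤ ∑ x ∈ X (f i1), (univ.filter (fun i => x ∈ X i)).card := Finset.card_biUnion_le
        _ ≤ ∑ x ∈ X (f i1), 2 * k := Finset.sum_le_sum (fun x _ => hdeg x)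
        _ = 2 * k ^ 2 := by simp [hX]; ring
  have hdouble : Fintype.card ι * 2 ^ (n - 2 * k) ≤ 2 ^ n * (2 * k ^ 2) := by
    calc Fintype.card ι * 2 ^ (n - 2 * k)
        = ∑ i : ι, ((univ : Finset (Finset (Fin n))).filter
      (fun T => Y i ⊆ T ∧ Disjoint T (Y (f i)))).card := by
          rw [Finset.sum_congr rfl (fun i _ => hcount1 i)]
          simp
      _ = ∑ T : Finset (Fin n), ((univ : Finset ι).filter
      (fun i => Y i ⊆ T ∧ Disjoint T (Y (f i)))).card := by
          simp_rw [Finset.card_filter]
          rw [Finset.sum_comm]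
      _ ≤ ∑ T : Finset (Fin n), 2 * k ^ 2 := Finset.sum_le_sum (fun T _ => hcount2 T)
      _ = 2 ^ n * (2 * k ^ 2) := by simp
  have hpow : 2 ^ n = 2 ^ (n - 2 * k) * 4 ^ k := by
    rw [show (4:ℕ) = 2 ^ 2 by norm_num, ← pow_mul, ← pow_add]
    congr 1; omega
  rw [hpow] at hdouble
  have hp : 0 < 2 ^ (n - 2 * k) := by positivity
  have : Fintype.card ι ≤ 2 * k ^ 2 * 4 ^ k := by
    refine Nat.le_of_mul_le_mul_right ?_ hp
    calc Fintype.card ι * 2 ^ (n - 2 * k) ≤ 2 ^ (n - 2 * k) * 4 ^ k * (2 * k ^ 2) := hdouble
      _ = 2 * k ^ 2 * 4 ^ k * 2 ^ (n - 2 * k) := by ring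
  omega

/-- The upper bound for large families. -/
theorem upper_large (hN : 2 * k ^ 2 * 4 ^ k < Fintype.card ι) :
    2 * k * Fintype.card ι + 2 * k ^ 2 ≤ 2 * n + k ^ 2 * (2 * k).choose k := by
  classical
  have hxy' : ∀ i j, i ≠ j → ¬ Disjoint (Y i) (Y j) → Disjoint (X i) (X j) := by
    intro i j hij h
    by_contra hcon
    exact h (hxy i j hij hcon)
  have hyx' : ∀ i j, i ≠ j → Disjoint (X i) (X j) → ¬ Disjoint (Y i) (Y j) := by
    intro i j hij h hcon
    exact hyx i j hij hcon h
  have hιne : Nonempty ι := by
    rw [← Fintype.card_pos_iff]; omega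
  obtain ⟨i0⟩ := hιne
  by_cases hcase : ∃ y, 2 * k < (univ.filter (fun i => y ∈ Y i)).card
  · obtain ⟨y, hy⟩ := hcase
    obtain ⟨i, hi⟩ := exists_transversal k hk X Y hX hY hxy hyx hN y hy
    exact upper_of_transversal k hk X Y hX hY hxy hyx (Y i) (hY i) hi
  · by_cases hcase2 : ∃ x, 2 * k < (univ.filter (fun i => x ∈ X i)).card
    · obtain ⟨x, hx⟩ := hcase2
      obtain ⟨i, hi⟩ := exists_transversal k hk Y X hY hX hxy' hyx' hN x hx
      exact upper_of_transversal k hk Y X hY hX hxy' hyx' (X i) (hX i) hi
    · exfalso
      push Not at hcase hcase2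
      have hcover : (univ : Finset ι) ⊆ ((X i0).biUnion (fun x => univ.filter (fun i => x ∈ X i)))
          ∪ ((Y i0).biUnion (fun y => univ.filter (fun i => y ∈ Y i))) := by
        intro j _
        rw [Finset.mem_union, Finset.mem_biUnion, Finset.mem_biUnion]
        by_cases hj : j = i0
        · subst hj
          left
          have : (X j).Nonempty := by
            rw [← Finset.card_pos, hX]; omega
          obtain ⟨x, hx⟩ := this
          exact ⟨x, hx, by simp [hx]⟩
        · by_cases hd : Disjoint (X j) (X i0)
          · right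
            have := hyx' j i0 hj hd
            rw [Finset.not_disjoint_iff] at this
            obtain ⟨y, hy1, hy2⟩ := this
            exact ⟨y, hy2, by simp [hy1]⟩
          · left
            rw [Finset.not_disjoint_iff] at hd
            obtain ⟨x, hx1, hx2⟩ := hd
            exact ⟨x, hx2, by simp [hx1]⟩
      have hle := Finset.card_le_card hcover
      have h1 : ((X i0).biUnion (fun x => univ.filter (fun i => x ∈ X i))).card ≤ k * (2 * k) := by
        refine Finset.card_biUnion_le.trans ?_
        refine (Finset.sum_le_sum (fun x _ => hcase2 x)).trans ?_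
        simp [hX]
      have h2 : ((Y i0).biUnion (fun y => univ.filter (fun i => y ∈ Y i))).card ≤ k * (2 * k) := by
        refine Finset.card_biUnion_le.trans ?_
        refine (Finset.sum_le_sum (fun x _ => hcase x)).trans ?_
        simp [hY]
      have h3 := hle.trans (Finset.card_union_le _ _)
      rw [Finset.card_univ] at h3
      have h4 : 4 ≤ 4 ^ k := by
        calc 4 = 4 ^ 1 := by norm_num
          _ ≤ 4 ^ k := Nat.pow_le_pow_right (by norm_num) hk
      nlinarith [Nat.zero_le (k ^ 2)]

end

end Pool.Agent.N382.XK
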