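import Mathlib
import Pool.Agent.N382.XK.Transversal

set_option autoImplicit false

namespace Pool.Agent.N382.XK

open Finset

section combin

variable (k : ℕ) (hk : 1 ≤ k)

/-- a base point -/
def a0 : Fin (2 * k) := ⟨0, by omega⟩

/-- number of `k`-subsets of a `2k`-set through a fixed point, doubled -/
lemma two_mul_card (a : Fin (2 * k)) :
    2 * (((univ : Finset (Fin (2 * k))).powersetCard k).filter (fun P => a ∈ P)).card
      = (2 * k).choose k := by
  classical
  have h1 : (((univ : Finset (Fin (2 * k))).powersetCard k).filter (fun P => a ∈ P)).card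
      = (((univ : Finset (Fin (2 * k))).powersetCard k).filter (fun P => ¬ a ∈ P)).card := by
    refine Finset.card_bij' (fun P _ => Pᶜ) (fun P _ => Pᶜ) ?_ ?_ ?_ ?_
    · intro P hP
      simp only [Finset.mem_filter, Finset.mem_powersetCard] at hP ⊢
      refine ⟨⟨Finset.subset_univ _, ?_⟩, by simpa using hP.2⟩
      rw [Finset.card_compl, hP.1.2, Fintype.card_fin]; omega
    · intro P hP
      simp only [Finset.mem_filter, Finset.mem_powersetCard] at hP ⊢
      refine ⟨⟨Finset.subset_univ _, ?_⟩, by simpa using hP.2⟩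
      rw [Finset.card_compl, hP.1.2, Fintype.card_fin]; omega
    · intro P _; simp
    · intro P _; simp
  have h2 := Finset.card_filter_add_card_filter_not (s := (univ : Finset (Fin (2 * k))).powersetCard k)
    (fun P => a ∈ P)
  rw [Finset.card_powersetCard, Finset.card_univ, Fintype.card_fin] at h2
  omega

lemma exists_Z0 : ∃ Z0 : Finset (Fin (2 * k)), a0 k hk ∈ Z0 ∧ Z0.card = k := by
  obtain ⟨Z, hZ1, hZ2, hZ3⟩ := Finset.exists_subsuperset_card_eq
    (s := {a0 k hk}) (t := (univ : Finset (Fin (2 * k)))) (n := k) (Finset.subset_univ _)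
    (by simpa using hk) (by simp; omega)
  exact ⟨Z, hZ1 (by simp), hZ3⟩

lemma compl_of_disjoint (P Q : Finset (Fin (2 * k))) (hP : P.card = k) (hQ : Q.card = k)
    (h : Disjoint P Q) : Q = Pᶜ := by
  apply Finset.eq_of_subset_of_card_le
  · rw [Finset.subset_compl_iff_disjoint_right]; exact h.symm
  · rw [Finset.card_compl, hP, hQ, Fintype.card_fin]; omega

end combin

/-- The construction. -/
theorem construction (n k : ℕ) (hk : 1 ≤ k) (b : ℕ) (hb : 2 * b = (2 * k).choose k)
    (hn : k ^ 2 * (b - 1) ≤ n) (hn2 : 2 * k ≤ n) :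
    ∃ (ι : Type) (_ : Fintype ι) (_ : DecidableEq ι) (X Y : ι → Finset (Fin n)),
      Fintype.card ι = n / k + k * (b - 1) ∧ (∀ i, (X i).card = k) ∧ (∀ i, (Y i).card = k) ∧
      ∀ i j, i ≠ j → Xor (Disjoint (X i) (X j)) (Disjoint (Y i) (Y j)) := by
  classical
  obtain ⟨Z0, hZ0, hZ0k⟩ := exists_Z0 k hk
  set G : Finset (Finset (Fin (2 * k))) :=
    (((univ : Finset (Fin (2 * k))).powersetCard k).filter (fun P => a0 k hk ∈ P)).erase Z0 with hG
  have hGcard : G.card = b - 1 := by
    rw [hG, Finset.card_erase_of_mem]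
    · have := two_mul_card k (a0 k hk)
      omega
    · simp [hZ0, hZ0k]
  have hGmem : ∀ P ∈ G, a0 k hk ∈ P ∧ P.card = k ∧ P ≠ Z0 := by
    intro P hP
    rw [hG, Finset.mem_erase, Finset.mem_filter, Finset.mem_powersetCard] at hP
    exact ⟨hP.2.2, hP.2.1.2, hP.1⟩
  set q : ℕ := n / k - k * (b - 1) with hq
  have hqle : k * (b - 1) ≤ n / k := by
    rw [Nat.le_div_iff_mul_le (by omega)]
    calc k * (b - 1) * k = k ^ 2 * (b - 1) := by ring
      _ ≤ n := hn
  -- ground set for X
  let V : Type := (G × Fin k × Fin k) ⊕ (Fin q × Fin k)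
  have hVcard : Fintype.card V ≤ Fintype.card (Fin n) := by
    simp only [V, Fintype.card_sum, Fintype.card_prod, Fintype.card_fin, Fintype.card_coe, hGcard]
    have h1 : n / k * k ≤ n := Nat.div_mul_le_self n k
    have h2 : q * k = n / k * k - k * (b - 1) * k := by rw [hq, Nat.sub_mul]
    have h3 : k * (b - 1) * k ≤ n / k * k := Nat.mul_le_mul_right k hqle
    have h4 : (b - 1) * (k * k) = k * (b - 1) * k := by ring
    omega
  obtain ⟨φ⟩ := Function.Embedding.nonempty_of_card_le hVcard
  have hYcard : Fintype.card (Fin (2 * k)) ≤ Fintype.card (Fin n) := by simpa using hn2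
  obtain ⟨ψ⟩ := Function.Embedding.nonempty_of_card_le hYcard
  let ι : Type := (G × Bool × Fin k) ⊕ Fin q
  let X0 : ι → Finset V := fun i => match i with
    | Sum.inl (P, true, r) => univ.image (fun c : Fin k => (Sum.inl (P, r, c) : V))
    | Sum.inl (P, false, c) => univ.image (fun r : Fin k => (Sum.inl (P, r, c) : V))
    | Sum.inr t => univ.image (fun c : Fin k => (Sum.inr (t, c) : V))
  let Y0 : ι → Finset (Fin (2 * k)) := fun i => match i with
    | Sum.inl (P, true, _) => P.1
    | Sum.inl (P, false, _) => P.1ᶜ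
    | Sum.inr _ => Z0
  have hX0 : ∀ i, (X0 i).card = k := by
    rintro (⟨P, _ | _, r⟩ | t)
    · simp only [X0]
      rw [Finset.card_image_of_injective, Finset.card_univ, Fintype.card_fin]
      intro c c' h; have h' := Sum.inl.inj h; simpa using h'
    · simp only [X0]
      rw [Finset.card_image_of_injective, Finset.card_univ, Fintype.card_fin]
      intro c c' h; have h' := Sum.inl.inj h; simpa using h'
    · simp only [X0]
      rw [Finset.card_image_of_injective, Finset.card_univ, Fintype.card_fin]
      intro c c' h; have h' := Sum.inr.inj h; simpa using h'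
  have hY0 : ∀ i, (Y0 i).card = k := by
    rintro (⟨P, _ | _, r⟩ | t)
    · simp only [Y0]
      rw [Finset.card_compl, (hGmem P.1 P.2).2.1, Fintype.card_fin]; omega
    · simp only [Y0]
      exact (hGmem P.1 P.2).2.1
    · simp only [Y0]
      exact hZ0k
  have hk0 : 0 < k := hk
  -- facts on Y-sets
  have hYtt : ∀ P Q : G, ¬ Disjoint P.1 Q.1 := by
    intro P Q
    rw [Finset.not_disjoint_iff]
    exact ⟨a0 k hk, (hGmem P.1 P.2).1, (hGmem Q.1 Q.2).1⟩
  have hYff : ∀ P Q : G, ¬ Disjoint (P.1ᶜ) (Q.1ᶜ) := by
    intro P Q h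
    have hc : (Q.1)ᶜ = (P.1)ᶜᶜ := by
      apply compl_of_disjoint k _ _ _ _ h
      · rw [Finset.card_compl, (hGmem P.1 P.2).2.1, Fintype.card_fin]; omega
      · rw [Finset.card_compl, (hGmem Q.1 Q.2).2.1, Fintype.card_fin]; omega
    rw [compl_compl] at hc
    have h1 := (hGmem P.1 P.2).1
    rw [← hc, Finset.mem_compl] at h1
    exact h1 (hGmem Q.1 Q.2).1
  have hYtf : ∀ P Q : G, Disjoint P.1 (Q.1ᶜ) ↔ P = Q := by
    intro P Q
    constructor
    · intro h
      have hc : (Q.1)ᶜ = (P.1)ᶜ := by
        apply compl_of_disjoint k _ _ _ _ h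
        · exact (hGmem P.1 P.2).2.1
        · rw [Finset.card_compl, (hGmem Q.1 Q.2).2.1, Fintype.card_fin]; omega
      exact Subtype.ext (compl_injective hc).symm
    · rintro rfl
      exact disjoint_compl_right
  have hYZt : ∀ P : G, ¬ Disjoint P.1 Z0 := by
    intro P
    rw [Finset.not_disjoint_iff]
    exact ⟨a0 k hk, (hGmem P.1 P.2).1, hZ0⟩
  have hYZf : ∀ P : G, ¬ Disjoint (P.1ᶜ) Z0 := by
    intro P h
    have hc : Z0 = (P.1)ᶜᶜ := by
      apply compl_of_disjoint k _ _ _ _ h
      · rw [Finset.card_compl, (hGmem P.1 P.2).2.1, Fintype.card_fin]; omega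
      · exact hZ0k
    rw [compl_compl] at hc
    exact (hGmem P.1 P.2).2.2 hc.symm
  have hZZ : ¬ Disjoint Z0 Z0 := by
    rw [Finset.not_disjoint_iff]; exact ⟨_, hZ0, hZ0⟩
  have hXor : ∀ i j, i ≠ j → Xor (Disjoint (X0 i) (X0 j)) (Disjoint (Y0 i) (Y0 j)) := by
    rintro (⟨P, _ | _, r⟩ | t) (⟨Q, _ | _, s⟩ | t') hij
    · -- f f
      left
      refine ⟨?_, ?_⟩
      · simp only [X0]
        rw [Finset.disjoint_left]
        intro v hv hv'
        simp only [Finset.mem_image, Finset.mem_univ, true_and] at hv hv'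
        obtain ⟨c, rfl⟩ := hv
        obtain ⟨c', hc'⟩ := hv'
        replace hc' := Sum.inl.inj hc'
        simp only [Prod.mk.injEq] at hc'
        exact hij (by rw [hc'.1, hc'.2.2])
      · exact hYff P Q
    · -- f t
      by_cases hPQ : P = Q
      · subst hPQ
        right
        refine ⟨((hYtf P P).mpr rfl).symm, ?_⟩
        simp only [X0]
        rw [Finset.not_disjoint_iff]
        exact ⟨Sum.inl (P, s, r), by simp, by simp⟩
      · left
        refine ⟨?_, fun h => hPQ ((hYtf Q P).mp h.symm).symm⟩
        simp only [X0]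
        rw [Finset.disjoint_left]
        intro v hv hv'
        simp only [Finset.mem_image, Finset.mem_univ, true_and] at hv hv'
        obtain ⟨c, rfl⟩ := hv
        obtain ⟨c', hc'⟩ := hv'
        replace hc' := Sum.inl.inj hc'
        simp only [Prod.mk.injEq] at hc'
        exact hPQ hc'.1.symm
    · -- f inr
      left
      refine ⟨?_, hYZf P⟩
      simp only [X0]
      rw [Finset.disjoint_left]
      intro v hv hv'
      simp only [Finset.mem_image, Finset.mem_univ, true_and] at hv hv'
      obtain ⟨c, rfl⟩ := hv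
      obtain ⟨c', hc'⟩ := hv'
      exact absurd hc' (by intro h; cases h)
    · -- t f
      by_cases hPQ : P = Q
      · subst hPQ
        right
        refine ⟨(hYtf P P).mpr rfl, ?_⟩
        simp only [X0]
        rw [Finset.not_disjoint_iff]
        exact ⟨Sum.inl (P, r, s), by simp, by simp⟩
      · left
        refine ⟨?_, fun h => hPQ ((hYtf P Q).mp h)⟩
        simp only [X0]
        rw [Finset.disjoint_left]
        intro v hv hv'
        simp only [Finset.mem_image, Finset.mem_univ, true_and] at hv hv'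
        obtain ⟨c, rfl⟩ := hv
        obtain ⟨c', hc'⟩ := hv'
        replace hc' := Sum.inl.inj hc'
        simp only [Prod.mk.injEq] at hc'
        exact hPQ hc'.1.symm
    · -- t t
      left
      refine ⟨?_, hYtt P Q⟩
      simp only [X0]
      rw [Finset.disjoint_left]
      intro v hv hv'
      simp only [Finset.mem_image, Finset.mem_univ, true_and] at hv hv'
      obtain ⟨c, rfl⟩ := hv
      obtain ⟨c', hc'⟩ := hv'
      replace hc' := Sum.inl.inj hc'
      simp only [Prod.mk.injEq] at hc'
      exact hij (by rw [hc'.1, hc'.2.1])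
    · -- t inr
      left
      refine ⟨?_, hYZt P⟩
      simp only [X0]
      rw [Finset.disjoint_left]
      intro v hv hv'
      simp only [Finset.mem_image, Finset.mem_univ, true_and] at hv hv'
      obtain ⟨c, rfl⟩ := hv
      obtain ⟨c', hc'⟩ := hv'
      exact absurd hc' (by intro h; cases h)
    · -- inr f
      left
      refine ⟨?_, fun h => hYZf Q h.symm⟩
      simp only [X0]
      rw [Finset.disjoint_left]
      intro v hv hv'
      simp only [Finset.mem_image, Finset.mem_univ, true_and] at hv hv'
      obtain ⟨c, rfl⟩ := hv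
      obtain ⟨c', hc'⟩ := hv'
      exact absurd hc' (by intro h; cases h)
    · -- inr t
      left
      refine ⟨?_, fun h => hYZt Q h.symm⟩
      simp only [X0]
      rw [Finset.disjoint_left]
      intro v hv hv'
      simp only [Finset.mem_image, Finset.mem_univ, true_and] at hv hv'
      obtain ⟨c, rfl⟩ := hv
      obtain ⟨c', hc'⟩ := hv'
      exact absurd hc' (by intro h; cases h)
    · -- inr inr
      left
      refine ⟨?_, hZZ⟩
      simp only [X0]
      rw [Finset.disjoint_left]
      intro v hv hv'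
      simp only [Finset.mem_image, Finset.mem_univ, true_and] at hv hv'
      obtain ⟨c, rfl⟩ := hv
      obtain ⟨c', hc'⟩ := hv'
      replace hc' := Sum.inr.inj hc'
      simp only [Prod.mk.injEq] at hc'
      exact hij (by rw [hc'.1])
  refine ⟨ι, inferInstance, inferInstance, fun i => (X0 i).map φ, fun i => (Y0 i).map ψ,
    ?_, ?_, ?_, ?_⟩
  · simp only [ι, Fintype.card_sum, Fintype.card_prod, Fintype.card_fin, Fintype.card_coe, hGcard,
      Fintype.card_bool]
    have : (b - 1) * (2 * k) = 2 * (k * (b - 1)) := by ring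
    omega
  · intro i; rw [Finset.card_map]; exact hX0 i
  · intro i; rw [Finset.card_map]; exact hY0 i
  · intro i j hij
    simp only [Finset.disjoint_map]
    exact hXor i j hij

end Pool.Agent.N382.XK
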